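import Mathlib

/-!
# Sets of lattice points with distinct distances: the finite inequality

For a set `S` of lattice points in the `n × n` grid with pairwise different distances and a finite
set `P` of primes congruent to one modulo four with product `D`, we show
`2 ^ #P * (k * (k - D)) ≤ 4 * n ^ 2 * (#P + 1)` where `k = #S`.
-/

namespace Pool.Agent.H41

open Finset

/-- squared distance of lattice points -/
def sqd (a b : ℤ × ℤ) : ℤ := (a.1 - b.1) ^ 2 + (a.2 - b.2) ^ 2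

lemma card_sq_le_pairs {α β : Type*} [DecidableEq α] [DecidableEq β] (S : Finset α) (κ : α → β)
    (C : Finset β) (h : ∀ a ∈ S, κ a ∈ C) :
    (S.card : ℝ) ^ 2 ≤ C.card * (((S ×ˢ S).filter (fun q => κ q.1 = κ q.2)).card : ℝ) := by
  have h1 : S.card = ∑ c ∈ C, (S.filter (fun a => κ a = c)).card :=
    Finset.card_eq_sum_card_fiberwise h
  have h2 : ((S ×ˢ S).filter (fun q => κ q.1 = κ q.2)).card =
      ∑ c ∈ C, (S.filter (fun a => κ a = c)).card ^ 2 := by
    rw [Finset.card_eq_sum_card_fiberwise (f := fun q : α × α => κ q.1) (t := C)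
      (fun q hq => by
        simp only [Finset.coe_filter, Finset.mem_product, Set.mem_ofPred_eq] at hq
        exact h _ hq.1.1)]
    refine Finset.sum_congr rfl fun c _ => ?_
    rw [sq, ← Finset.card_product]
    congr 1
    ext q
    simp only [Finset.mem_filter, Finset.mem_product]
    constructor
    · rintro ⟨⟨⟨ha, hb⟩, hab⟩, hc⟩
      exact ⟨⟨ha, hc⟩, hb, hab ▸ hc⟩
    · rintro ⟨⟨ha, hc⟩, hb, hc'⟩
      exact ⟨⟨⟨ha, hb⟩, hc.trans hc'.symm⟩, hc⟩
  rw [h2]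
  have h3 := sq_sum_le_card_mul_sum_sq (s := C)
    (f := fun c => ((S.filter (fun a => κ a = c)).card : ℝ))
  rw [h1]
  push_cast
  exact h3

/-- sign attached to a prime by a subset -/
def sg (T : Finset ℕ) (p : ℕ) : ℤ := if p ∈ T then 1 else -1

lemma sg_sq (T : Finset ℕ) (p : ℕ) : sg T p ^ 2 = 1 := by
  unfold sg; split_ifs <;> norm_num

/-- sign patterns `T` for which `v` lies in the corresponding ideal -/
def validT (P : Finset ℕ) (t : ℕ → ℤ) (v : ℤ × ℤ) : Finset (Finset ℕ) :=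
  P.powerset.filter (fun T => ∀ p ∈ P, (p : ℤ) ∣ v.1 + sg T p * t p * v.2)

lemma validT_card_le (P : Finset ℕ) (t : ℕ → ℤ) (hP : ∀ p ∈ P, p.Prime ∧ p % 4 = 1)
    (ht : ∀ p ∈ P, (p : ℤ) ∣ t p ^ 2 + 1) (v : ℤ × ℤ) :
    (validT P t v).card ≤ (P.powerset.filter (fun I : Finset ℕ =>
      ((∏ p ∈ P, (p : ℤ)) * ∏ p ∈ I, (p : ℤ)) ∣ v.1 ^ 2 + v.2 ^ 2)).card := by
  classical
  set I0 : Finset ℕ := P.filter (fun p => (p : ℤ) ∣ v.1 + t p * v.2 ∧ (p : ℤ) ∣ v.1 - t p * v.2)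
    with hI0
  -- primes in I0 divide both coordinates
  have hI0dvd : ∀ p ∈ I0, (p : ℤ) ∣ v.1 ∧ (p : ℤ) ∣ v.2 := by
    intro p hp
    rw [hI0, Finset.mem_filter] at hp
    obtain ⟨hpP, h1, h2⟩ := hp
    obtain ⟨hpp, hp4⟩ := hP p hpP
    have hpi : Prime (p : ℤ) := Nat.prime_iff_prime_int.1 hpp
    have hp2 : ¬ (p : ℤ) ∣ 2 := by
      intro h
      have : p ∣ 2 := by exact_mod_cast h
      have h3 := (Nat.prime_dvd_prime_iff_eq hpp Nat.prime_two).1 this
      omega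
    have hpt : ¬ (p : ℤ) ∣ t p := by
      intro h
      have h3 : (p : ℤ) ∣ 1 := by
        have h4 : (p : ℤ) ∣ t p ^ 2 := h.trans (dvd_pow_self _ (by norm_num))
        exact (Int.dvd_add_right h4).1 (ht p hpP)
      exact hpi.not_dvd_one h3
    constructor
    · have h3 : (p : ℤ) ∣ 2 * v.1 := by
        have := dvd_add h1 h2
        ring_nf at this ⊢
        exact this
      exact (hpi.dvd_or_dvd h3).resolve_left hp2
    · have h3 : (p : ℤ) ∣ 2 * (t p * v.2) := by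
        have := dvd_sub h1 h2
        ring_nf at this ⊢
        exact this
      exact ((hpi.dvd_or_dvd ((hpi.dvd_or_dvd h3).resolve_left hp2))).resolve_left hpt
  refine Finset.card_le_card_of_injOn (fun T => T ∩ I0) ?_ ?_
  · intro T hT
    simp only [validT, Finset.coe_filter, Finset.mem_powerset, Set.mem_ofPred_eq] at hT
    obtain ⟨hTP, hTv⟩ := hT
    simp only [Finset.coe_filter, Finset.mem_powerset, Set.mem_ofPred_eq]
    refine ⟨(Finset.inter_subset_left).trans hTP, ?_⟩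
    have hsub : T ∩ I0 ⊆ P := (Finset.inter_subset_left).trans hTP
    have hprod : (∏ p ∈ P, (p : ℤ)) * ∏ p ∈ T ∩ I0, (p : ℤ) =
        ∏ p ∈ P, ((p : ℤ) * if p ∈ T ∩ I0 then (p : ℤ) else 1) := by
      rw [Finset.prod_mul_distrib, Finset.prod_ite_mem, Finset.inter_eq_right.2 hsub]
    rw [hprod]
    apply Finset.prod_dvd_of_coprime
    · intro p hp q hq hpq
      have hpp := (hP p hp).1
      have hqq := (hP q hq).1
      have hcop : IsCoprime (p : ℤ) (q : ℤ) :=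
        Nat.isCoprime_iff_coprime.2 ((Nat.coprime_primes hpp hqq).2 hpq)
      show IsCoprime _ _
      dsimp only
      split_ifs
      · exact IsCoprime.mul_left (IsCoprime.mul_right hcop hcop) (IsCoprime.mul_right hcop hcop)
      · rw [mul_one]; exact IsCoprime.mul_left hcop hcop
      · rw [mul_one]; exact IsCoprime.mul_right hcop hcop
      · rw [mul_one, mul_one]; exact hcop
    · intro p hp
      split_ifs with hpI
      · have h1 := hI0dvd p (Finset.mem_inter.1 hpI).2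
        have h2 : (p : ℤ) * p ∣ v.1 ^ 2 := by rw [sq]; exact mul_dvd_mul h1.1 h1.1
        have h3 : (p : ℤ) * p ∣ v.2 ^ 2 := by rw [sq]; exact mul_dvd_mul h1.2 h1.2
        exact dvd_add h2 h3
      · rw [mul_one]
        have h1 := hTv p hp
        have h2 : v.1 ^ 2 + v.2 ^ 2 = (v.1 + sg T p * t p * v.2) * (v.1 - sg T p * t p * v.2) +
            (t p ^ 2 + 1) * v.2 ^ 2 := by
          have := sg_sq T p
          linear_combination (t p) ^ 2 * v.2 ^ 2 * this
        rw [h2]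
        exact dvd_add (h1.mul_right _) ((ht p hp).mul_right _)
  · intro T hT T' hT' hTT'
    simp only [validT, Finset.coe_filter, Finset.mem_powerset, Set.mem_ofPred_eq] at hT hT'
    dsimp only at hTT'
    have key : ∀ A B : Finset ℕ, A ⊆ P → (∀ p ∈ P, (p : ℤ) ∣ v.1 + sg A p * t p * v.2) →
        (∀ p ∈ P, (p : ℤ) ∣ v.1 + sg B p * t p * v.2) → A ∩ I0 = B ∩ I0 → A ⊆ B := by
      intro A B hA hvA hvB hAB p hpA
      by_contra hpB
      have hpP := hA hpA
      have h1 := hvA p hpP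
      have h2 := hvB p hpP
      simp only [sg, hpA, if_true, hpB, if_false] at h1 h2
      have hpI : p ∈ I0 := by
        rw [hI0, Finset.mem_filter]
        refine ⟨hpP, by simpa using h1, ?_⟩
        have : v.1 + -1 * t p * v.2 = v.1 - t p * v.2 := by ring
        rwa [this] at h2
      have : p ∈ B ∩ I0 := hAB ▸ Finset.mem_inter.2 ⟨hpA, hpI⟩
      exact hpB (Finset.mem_inter.1 this).1
    exact Finset.Subset.antisymm (key T T' hT.1 hT.2 hT'.2 hTT') (key T' T hT'.1 hT'.2 hT.2 hTT'.symm)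

/-- distinct distances, in terms of squared distances -/
def DD (S : Finset (ℤ × ℤ)) : Prop :=
  ∀ a ∈ S, ∀ b ∈ S, ∀ c ∈ S, ∀ d ∈ S, a ≠ b → c ≠ d → sqd a b = sqd c d →
    (a = c ∧ b = d) ∨ (a = d ∧ b = c)

lemma sqd_pos {a b : ℤ × ℤ} (h : a ≠ b) : 0 < sqd a b := by
  unfold sqd
  rcases eq_or_ne a.1 b.1 with h1 | h1
  · have h2 : a.2 ≠ b.2 := fun h2 => h (Prod.ext h1 h2)
    have : 0 < (a.2 - b.2) ^ 2 := by
      have := sub_ne_zero.2 h2
      positivity
    positivity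
  · have : 0 < (a.1 - b.1) ^ 2 := by
      have := sub_ne_zero.2 h1
      positivity
    positivity

lemma card_multiples_le (S : Finset (ℤ × ℤ)) (n : ℕ)
    (hS : ∀ a ∈ S, 1 ≤ a.1 ∧ a.1 ≤ n ∧ 1 ≤ a.2 ∧ a.2 ≤ n) (hD : DD S) (m : ℤ) (hm : 0 < m) :
    ((((S ×ˢ S).filter (fun q => q.1 ≠ q.2)).filter (fun q => m ∣ sqd q.1 q.2)).card : ℝ) ≤
      4 * (n : ℝ) ^ 2 / m := by
  classical
  set U := ((S ×ˢ S).filter (fun q => q.1 ≠ q.2)).filter (fun q => m ∣ sqd q.1 q.2) with hU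
  set V : Finset ℤ := (Finset.Ioc 0 (2 * (n : ℤ) ^ 2 / m)).image (fun e => m * e) with hV
  have hmaps : ∀ q ∈ U, sqd q.1 q.2 ∈ V := by
    intro q hq
    rw [hU, Finset.mem_filter, Finset.mem_filter, Finset.mem_product] at hq
    obtain ⟨⟨⟨ha, hb⟩, hne⟩, e, he⟩ := hq
    have h1 := hS _ ha
    have h2 := hS _ hb
    have hpos := sqd_pos hne
    rw [hV, Finset.mem_image]
    refine ⟨e, ?_, he.symm⟩
    rw [Finset.mem_Ioc]
    constructor
    · rw [he] at hpos
      exact (mul_pos_iff_of_pos_left hm).1 hpos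
    · rw [Int.le_ediv_iff_mul_le hm, mul_comm, ← he]
      unfold sqd
      have h3 : (q.1.1 - q.2.1) ^ 2 ≤ (n : ℤ) ^ 2 := by
        apply sq_le_sq'
        · linarith [h1.1, h2.2.1]
        · linarith [h2.1, h1.2.1]
      have h4 : (q.1.2 - q.2.2) ^ 2 ≤ (n : ℤ) ^ 2 := by
        apply sq_le_sq'
        · linarith [h1.2.2.1, h2.2.2.2]
        · linarith [h2.2.2.1, h1.2.2.2]
      linarith
  have hfib : ∀ s ∈ V, (U.filter (fun q => sqd q.1 q.2 = s)).card ≤ 2 := by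
    intro s _
    rcases (U.filter (fun q => sqd q.1 q.2 = s)).eq_empty_or_nonempty with h0 | ⟨q0, hq0⟩
    · rw [h0]; simp
    · have hsub : U.filter (fun q => sqd q.1 q.2 = s) ⊆ {q0, (q0.2, q0.1)} := by
        intro q hq
        rw [Finset.mem_filter, hU, Finset.mem_filter, Finset.mem_filter, Finset.mem_product] at hq hq0
        obtain ⟨⟨⟨⟨ha, hb⟩, hne⟩, _⟩, hs⟩ := hq
        obtain ⟨⟨⟨⟨ha0, hb0⟩, hne0⟩, _⟩, hs0⟩ := hq0
        rw [Finset.mem_insert, Finset.mem_singleton]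
        rcases hD _ ha _ hb _ ha0 _ hb0 hne hne0 (hs.trans hs0.symm) with h | h
        · left; exact Prod.ext h.1 h.2
        · right; exact Prod.ext h.1 h.2
      exact (Finset.card_le_card hsub).trans Finset.card_le_two
  have hcard := Finset.card_le_mul_card_image_of_maps_to hmaps 2 hfib
  have hVcard : V.card ≤ (2 * (n : ℤ) ^ 2 / m).toNat := by
    refine Finset.card_image_le.trans ?_
    simp
  have hnn : 0 ≤ 2 * (n : ℤ) ^ 2 / m := Int.ediv_nonneg (by positivity) hm.le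
  have hle : ((2 * (n : ℤ) ^ 2 / m : ℤ) : ℝ) ≤ (2 * (n : ℝ) ^ 2) / m := by
    rw [le_div_iff₀ (by exact_mod_cast hm)]
    have := Int.ediv_mul_le (2 * (n : ℤ) ^ 2) hm.ne'
    exact_mod_cast this
  have h5 : ((V.card : ℕ) : ℝ) ≤ (2 * (n : ℝ) ^ 2) / m := by
    refine le_trans ?_ hle
    have h6 : ((V.card : ℕ) : ℤ) ≤ 2 * (n : ℤ) ^ 2 / m := by
      have := Int.toNat_of_nonneg hnn
      rw [← this]
      exact_mod_cast hVcard
    exact_mod_cast h6
  calc (U.card : ℝ) ≤ ((2 * V.card : ℕ) : ℝ) := by exact_mod_cast hcard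
    _ = 2 * (V.card : ℝ) := by push_cast; ring
    _ ≤ 2 * ((2 * (n : ℝ) ^ 2) / m) := by linarith
    _ = 4 * (n : ℝ) ^ 2 / m := by ring

lemma prod_one_add_inv_le (P : Finset ℕ) (hP : ∀ p ∈ P, 0 < p) :
    ∏ p ∈ P, (1 + 1 / (p : ℝ)) ≤ P.card + 1 := by
  induction P using Finset.induction_on_max with
  | empty => simp
  | insert a s hs ih =>
    have ha : a ∉ s := fun h => lt_irrefl _ (hs a h)
    rw [Finset.prod_insert ha, Finset.card_insert_of_notMem ha]
    have ih' := ih (fun p hp => hP p (Finset.mem_insert_of_mem hp))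
    have hsub : s ⊆ Finset.Ico 1 a := by
      intro p hp
      rw [Finset.mem_Ico]
      exact ⟨hP p (Finset.mem_insert_of_mem hp), hs p hp⟩
    have hc := Finset.card_le_card hsub
    rw [Nat.card_Ico] at hc
    have ha0 : 0 < a := hP a (Finset.mem_insert_self _ _)
    have h1 : (s.card : ℝ) + 1 ≤ a := by
      have : s.card + 1 ≤ a := by omega
      exact_mod_cast this
    have ha' : (0 : ℝ) < a := by exact_mod_cast ha0
    have h2 : (1 + 1 / (a : ℝ)) * (s.card + 1) ≤ (s.card + 1) + 1 := by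
      have : 1 / (a : ℝ) * (s.card + 1) ≤ 1 := by
        rw [one_div, inv_mul_le_iff₀ ha', mul_one]; exact h1
      linarith
    push_cast
    calc (1 + 1 / (a : ℝ)) * ∏ p ∈ s, (1 + 1 / (p : ℝ)) ≤ (1 + 1 / (a : ℝ)) * (s.card + 1) :=
          mul_le_mul_of_nonneg_left ih' (by positivity)
      _ ≤ _ := h2

/-- The finite inequality with the exact product. -/
theorem main_inequality' (S : Finset (ℤ × ℤ)) (n : ℕ)
    (hS : ∀ a ∈ S, 1 ≤ a.1 ∧ a.1 ≤ n ∧ 1 ≤ a.2 ∧ a.2 ≤ n) (hD : DD S)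
    (P : Finset ℕ) (hP : ∀ p ∈ P, p.Prime ∧ p % 4 = 1) :
    (2 : ℝ) ^ P.card * (S.card * (S.card - ∏ p ∈ P, (p : ℝ))) ≤
      4 * (n : ℝ) ^ 2 * ∏ p ∈ P, (1 + 1 / (p : ℝ)) := by
  classical
  -- square roots of minus one
  have hex : ∀ p : ℕ, ∃ t : ℤ, (p.Prime ∧ p % 4 = 1) → (p : ℤ) ∣ t ^ 2 + 1 := by
    intro p
    by_cases hp : p.Prime ∧ p % 4 = 1
    · have : Fact p.Prime := ⟨hp.1⟩
      obtain ⟨y, hy⟩ := (ZMod.exists_sq_eq_neg_one_iff (p := p)).2 (by omega)
      refine ⟨(y.val : ℤ), fun _ => ?_⟩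
      rw [← ZMod.intCast_zmod_eq_zero_iff_dvd]
      push_cast
      rw [ZMod.natCast_val, ZMod.cast_id', id, sq, ← hy]
      ring
    · exact ⟨0, fun h => absurd h hp⟩
  choose t ht0 using hex
  have ht : ∀ p ∈ P, (p : ℤ) ∣ t p ^ 2 + 1 := fun p hp => ht0 p (hP p hp)
  have hpos : ∀ p ∈ P, 0 < p := fun p hp => (hP p hp).1.pos
  set D : ℝ := ∏ p ∈ P, (p : ℝ) with hDdef
  have hDpos : 0 < D := Finset.prod_pos fun p hp => by exact_mod_cast hpos p hp
  set k : ℝ := (S.card : ℝ) with hk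
  -- the class maps
  let κ : Finset ℕ → ℤ × ℤ → (∀ p ∈ P, ℤ) := fun T a p _ => (a.1 + sg T p * t p * a.2) % p
  let C : Finset (∀ p ∈ P, ℤ) := P.pi (fun p => Finset.Ico (0 : ℤ) p)
  have hC : (C.card : ℝ) = D := by
    simp only [C, Finset.card_pi, Int.card_Ico, sub_zero, Int.toNat_natCast]
    push_cast
    rfl
  have hmap : ∀ T : Finset ℕ, ∀ a ∈ S, κ T a ∈ C := by
    intro T a _
    simp only [C, κ, Finset.mem_pi, Finset.mem_Ico]
    intro p hp
    have : (0 : ℤ) < p := by exact_mod_cast hpos p hp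
    exact ⟨Int.emod_nonneg _ this.ne', Int.emod_lt_of_pos _ this⟩
  have hκ : ∀ T a b, κ T a = κ T b ↔
      ∀ p ∈ P, (p : ℤ) ∣ (a.1 - b.1) + sg T p * t p * (a.2 - b.2) := by
    intro T a b
    constructor
    · intro h p hp
      have h1 : (a.1 + sg T p * t p * a.2) % p = (b.1 + sg T p * t p * b.2) % p :=
        congrFun (congrFun h p) hp
      have h2 := Int.emod_emod_of_dvd
      have h3 : (p : ℤ) ∣ (a.1 + sg T p * t p * a.2) - (b.1 + sg T p * t p * b.2) :=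
        Int.ModEq.dvd (Int.ModEq.symm h1)
      have : (a.1 - b.1) + sg T p * t p * (a.2 - b.2) =
          (a.1 + sg T p * t p * a.2) - (b.1 + sg T p * t p * b.2) := by ring
      rw [this]; exact h3
    · intro h
      funext p hp
      have h1 := h p hp
      have : (a.1 - b.1) + sg T p * t p * (a.2 - b.2) =
          (a.1 + sg T p * t p * a.2) - (b.1 + sg T p * t p * b.2) := by ring
      rw [this] at h1
      exact (Int.ModEq.symm ((Int.modEq_iff_dvd).2 h1))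
  -- lower bound by Cauchy-Schwarz
  have hlow : (2 : ℝ) ^ P.card * k ^ 2 ≤
      D * ∑ T ∈ P.powerset, (((S ×ˢ S).filter (fun q => κ T q.1 = κ T q.2)).card : ℝ) := by
    rw [Finset.mul_sum]
    have : (2 : ℝ) ^ P.card * k ^ 2 = ∑ T ∈ P.powerset, k ^ 2 := by
      rw [Finset.sum_const, Finset.card_powerset, nsmul_eq_mul]; push_cast; rfl
    rw [this]
    refine Finset.sum_le_sum fun T _ => ?_
    have := card_sq_le_pairs S (κ T) C (hmap T)
    rw [hC] at this
    exact this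
  -- swap the sums
  have hswap : ∑ T ∈ P.powerset, (((S ×ˢ S).filter (fun q => κ T q.1 = κ T q.2)).card : ℝ) =
      ∑ q ∈ S ×ˢ S, ((validT P t (q.1.1 - q.2.1, q.1.2 - q.2.2)).card : ℝ) := by
    have h1 : ∀ T, (((S ×ˢ S).filter (fun q => κ T q.1 = κ T q.2)).card : ℝ) =
        ∑ q ∈ S ×ˢ S, if κ T q.1 = κ T q.2 then (1 : ℝ) else 0 := by
      intro T; rw [Finset.sum_ite]; simp
    have h2 : ∀ q : (ℤ × ℤ) × (ℤ × ℤ),
        ((validT P t (q.1.1 - q.2.1, q.1.2 - q.2.2)).card : ℝ) =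
        ∑ T ∈ P.powerset, if κ T q.1 = κ T q.2 then (1 : ℝ) else 0 := by
      intro q
      rw [Finset.sum_ite]
      simp only [hκ, Finset.sum_const, nsmul_eq_mul, mul_one, mul_zero, add_zero]
      rfl
    simp only [h1, h2]
    rw [Finset.sum_comm]
  -- diagonal and off-diagonal parts
  have hsplit : ∑ q ∈ S ×ˢ S, ((validT P t (q.1.1 - q.2.1, q.1.2 - q.2.2)).card : ℝ) ≤
      (2 : ℝ) ^ P.card * k +
      ∑ q ∈ (S ×ˢ S).filter (fun q => q.1 ≠ q.2),
        ((P.powerset.filter (fun I : Finset ℕ =>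
          ((∏ p ∈ P, (p : ℤ)) * ∏ p ∈ I, (p : ℤ)) ∣ sqd q.1 q.2)).card : ℝ) := by
    rw [← Finset.sum_filter_add_sum_filter_not (S ×ˢ S) (fun q => q.1 ≠ q.2), add_comm]
    apply add_le_add
    · have h1 : ∀ q ∈ (S ×ˢ S).filter (fun q => ¬ q.1 ≠ q.2),
          ((validT P t (q.1.1 - q.2.1, q.1.2 - q.2.2)).card : ℝ) ≤ (2 : ℝ) ^ P.card := by
        intro q _
        have : (validT P t (q.1.1 - q.2.1, q.1.2 - q.2.2)).card ≤ P.powerset.card :=
          Finset.card_filter_le _ _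
        rw [Finset.card_powerset] at this
        exact_mod_cast this
      refine (Finset.sum_le_sum h1).trans ?_
      rw [Finset.sum_const, nsmul_eq_mul, mul_comm]
      refine mul_le_mul_of_nonneg_left ?_ (by positivity)
      have hinj : ((S ×ˢ S).filter (fun q => ¬ q.1 ≠ q.2)).card ≤ S.card := by
        refine Finset.card_le_card_of_injOn (fun q => q.1) ?_ ?_
        · intro q hq
          simp only [Finset.coe_filter, Finset.mem_product, Set.mem_ofPred_eq] at hq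
          exact hq.1.1
        · intro q hq q' hq' hqq
          simp only [Finset.coe_filter, Finset.mem_product, Set.mem_ofPred_eq, not_not] at hq hq'
          dsimp only at hqq
          exact Prod.ext hqq (by rw [← hq.2, ← hq'.2, hqq])
      rw [hk]
      exact_mod_cast hinj
    · refine Finset.sum_le_sum fun q _ => ?_
      have := validT_card_le P t hP ht (q.1.1 - q.2.1, q.1.2 - q.2.2)
      have h2 : ((validT P t (q.1.1 - q.2.1, q.1.2 - q.2.2)).card : ℝ) ≤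
        ((P.powerset.filter (fun I : Finset ℕ =>
          ((∏ p ∈ P, (p : ℤ)) * ∏ p ∈ I, (p : ℤ)) ∣
            (q.1.1 - q.2.1) ^ 2 + (q.1.2 - q.2.2) ^ 2)).card : ℝ) := by
        exact_mod_cast this
      exact h2
  have hoff : ∑ q ∈ (S ×ˢ S).filter (fun q => q.1 ≠ q.2),
        ((P.powerset.filter (fun I : Finset ℕ =>
          ((∏ p ∈ P, (p : ℤ)) * ∏ p ∈ I, (p : ℤ)) ∣ sqd q.1 q.2)).card : ℝ) ≤
      (4 * (n : ℝ) ^ 2 / D) * ∏ p ∈ P, (1 + 1 / (p : ℝ)) := by
    have h1 : ∀ q : (ℤ × ℤ) × (ℤ × ℤ), ((P.powerset.filter (fun I : Finset ℕ =>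
          ((∏ p ∈ P, (p : ℤ)) * ∏ p ∈ I, (p : ℤ)) ∣ sqd q.1 q.2)).card : ℝ) =
        ∑ I ∈ P.powerset, if ((∏ p ∈ P, (p : ℤ)) * ∏ p ∈ I, (p : ℤ)) ∣ sqd q.1 q.2
          then (1 : ℝ) else 0 := by
      intro q; rw [Finset.sum_ite]; simp
    simp only [h1]
    rw [Finset.sum_comm]
    have h2 : ∀ I ∈ P.powerset, (∑ q ∈ (S ×ˢ S).filter (fun q => q.1 ≠ q.2),
        if ((∏ p ∈ P, (p : ℤ)) * ∏ p ∈ I, (p : ℤ)) ∣ sqd q.1 q.2 then (1 : ℝ) else 0) ≤
        (4 * (n : ℝ) ^ 2 / D) * ∏ p ∈ I, (1 / (p : ℝ)) := by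
      intro I hI
      rw [Finset.mem_powerset] at hI
      have hm1 : 0 < ∏ p ∈ P, (p : ℤ) :=
        Finset.prod_pos fun p hp => by exact_mod_cast hpos p hp
      have hm2 : 0 < ∏ p ∈ I, (p : ℤ) :=
        Finset.prod_pos fun p hp => by exact_mod_cast hpos p (hI hp)
      have h3 := card_multiples_le S n hS hD _ (mul_pos hm1 hm2)
      have h4 : (∑ q ∈ (S ×ˢ S).filter (fun q => q.1 ≠ q.2),
          if ((∏ p ∈ P, (p : ℤ)) * ∏ p ∈ I, (p : ℤ)) ∣ sqd q.1 q.2 then (1 : ℝ) else 0) =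
          ((((S ×ˢ S).filter (fun q => q.1 ≠ q.2)).filter
            (fun q => ((∏ p ∈ P, (p : ℤ)) * ∏ p ∈ I, (p : ℤ)) ∣ sqd q.1 q.2)).card : ℝ) := by
        rw [Finset.sum_ite]; simp
      rw [h4]
      refine h3.trans (le_of_eq ?_)
      push_cast
      rw [Finset.prod_div_distrib, Finset.prod_const_one, ← hDdef]
      field_simp
    refine (Finset.sum_le_sum h2).trans (le_of_eq ?_)
    rw [← Finset.mul_sum, Finset.prod_one_add]
  rw [hswap] at hlow
  have hfin : (2 : ℝ) ^ P.card * k ^ 2 ≤ D * ((2 : ℝ) ^ P.card * k +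
      (4 * (n : ℝ) ^ 2 / D) * ∏ p ∈ P, (1 + 1 / (p : ℝ))) := by
    refine hlow.trans (mul_le_mul_of_nonneg_left ?_ hDpos.le)
    exact hsplit.trans (add_le_add le_rfl hoff)
  have hfin2 : D * ((2 : ℝ) ^ P.card * k + (4 * (n : ℝ) ^ 2 / D) * ∏ p ∈ P, (1 + 1 / (p : ℝ))) =
      (2 : ℝ) ^ P.card * k * D + 4 * (n : ℝ) ^ 2 * ∏ p ∈ P, (1 + 1 / (p : ℝ)) := by
    field_simp
  rw [hfin2] at hfin
  nlinarith

/-- The finite inequality. -/
theorem main_inequality (S : Finset (ℤ × ℤ)) (n : ℕ)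
    (hS : ∀ a ∈ S, 1 ≤ a.1 ∧ a.1 ≤ n ∧ 1 ≤ a.2 ∧ a.2 ≤ n) (hD : DD S)
    (P : Finset ℕ) (hP : ∀ p ∈ P, p.Prime ∧ p % 4 = 1) :
    (2 : ℝ) ^ P.card * (S.card * (S.card - ∏ p ∈ P, (p : ℝ))) ≤
      4 * (n : ℝ) ^ 2 * (P.card + 1) := by
  refine (main_inequality' S n hS hD P hP).trans ?_
  exact mul_le_mul_of_nonneg_left (prod_one_add_inv_le P fun p hp => (hP p hp).1.pos)
    (by positivity)

end Pool.Agent.H41
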