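import Pool.Agent.H41.PrimesModFour
import Pool.Agent.H41.GridIdeals

/-!
# Asymptotic upper bound for sets of lattice points with distinct distances
-/

namespace Pool.Agent.H41

open Finset Real Filter

lemma exists_delta (c : ℝ) (hc : c < Real.log 2 / 2) :
    ∃ δ : ℝ, 0 < δ ∧ δ < 1 ∧ 2 * c < (1 - δ) ^ 2 * Real.log 2 := by
  have hl : 0 < Real.log 2 := Real.log_pos (by norm_num)
  refine ⟨min (1 / 2) ((Real.log 2 / 2 - c) / (2 * Real.log 2)), ?_, ?_, ?_⟩
  · apply lt_min (by norm_num)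
    apply div_pos (by linarith) (by linarith)
  · exact lt_of_le_of_lt (min_le_left _ _) (by norm_num)
  · set δ := min (1 / 2) ((Real.log 2 / 2 - c) / (2 * Real.log 2)) with hδ
    have h1 : δ ≤ (Real.log 2 / 2 - c) / (2 * Real.log 2) := min_le_right _ _
    have h2 : δ * (2 * Real.log 2) ≤ Real.log 2 / 2 - c := by
      rwa [le_div_iff₀ (by linarith)] at h1
    nlinarith [sq_nonneg δ]

/-- all conditions on `L = log n` used in the argument -/
lemma eventually_conditions (c δ : ℝ) (hδ : 0 < δ) (hδ1 : δ < 1)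
    (hγ : 2 * c < (1 - δ) ^ 2 * Real.log 2) :
    ∀ᶠ L : ℝ in atTop, 1 ≤ L ∧ 1 ≤ Real.log L ∧ 2 / δ ≤ Real.log L ∧ 4 * |c| / δ ≤ Real.log L ∧
      4 / δ ≤ L ∧ (Real.log L) ^ 2 + 5 * Real.log L ≤ ((1 - δ) ^ 2 * Real.log 2 - 2 * c) * L ∧
      ((⌈L ^ (1 / (1 - δ))⌉₊ : ℕ) : ℝ) ^ (1 - δ) ≤
        ((primesOne ⌈L ^ (1 / (1 - δ))⌉₊).card : ℝ) := by
  have hb : 0 < 1 / (1 - δ) := by
    apply one_div_pos.2; linarith
  have hlog : Tendsto Real.log atTop atTop := Real.tendsto_log_atTop
  have hQ : Tendsto (fun L : ℝ => ⌈L ^ (1 / (1 - δ))⌉₊) atTop atTop :=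
    tendsto_nat_ceil_atTop.comp (tendsto_rpow_atTop hb)
  have hcard := hQ.eventually (eventually_card_primesOne hδ hδ1)
  have hγ' : 0 < ((1 - δ) ^ 2 * Real.log 2 - 2 * c) / 6 := by linarith
  have hlo : ∀ᶠ L : ℝ in atTop, (Real.log L) ^ 2 ≤ ((1 - δ) ^ 2 * Real.log 2 - 2 * c) / 6 * L := by
    have h1 := (Real.isLittleO_pow_log_id_atTop (n := 2)).bound hγ'
    filter_upwards [h1, eventually_ge_atTop 0] with L hL hL0
    rw [Real.norm_of_nonneg (by positivity), id, Real.norm_of_nonneg hL0] at hL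
    exact hL
  filter_upwards [eventually_ge_atTop 1, hlog.eventually_ge_atTop 1,
    hlog.eventually_ge_atTop (2 / δ), hlog.eventually_ge_atTop (4 * |c| / δ),
    eventually_ge_atTop (4 / δ), hlo, hcard] with L h1 h2 h3 h4 h5 h6 h7
  refine ⟨h1, h2, h3, h4, h5, ?_, h7⟩
  have : Real.log L ≤ (Real.log L) ^ 2 := by nlinarith
  linarith

theorem asymp (c : ℝ) (hc : c < Real.log 2 / 2) :
    ∀ᶠ n : ℕ in atTop, ∀ S : Finset (ℤ × ℤ),
      (∀ a ∈ S, 1 ≤ a.1 ∧ a.1 ≤ n ∧ 1 ≤ a.2 ∧ a.2 ≤ n) → DD S →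
      (S.card : ℝ) ≤ (n : ℝ) ^ (1 - c / Real.log (Real.log n)) := by
  obtain ⟨δ, hδ, hδ1, hγ⟩ := exists_delta c hc
  have hlim : Tendsto (fun n : ℕ => Real.log (n : ℝ)) atTop atTop :=
    Real.tendsto_log_atTop.comp tendsto_natCast_atTop_atTop
  filter_upwards [hlim.eventually (eventually_conditions c δ hδ hδ1 hγ),
    eventually_ge_atTop 1] with n hn hn1 S hS hD
  obtain ⟨h1, h2, h3, h4, h5, h6, h7⟩ := hn
  have hnpos : (0 : ℝ) < n := by exact_mod_cast hn1
  set L := Real.log (n : ℝ) with hL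
  have hnexp : (n : ℝ) = Real.exp L := (Real.exp_log hnpos).symm
  set l := Real.log L with hl
  have hLpos : 0 < L := by linarith
  have hlpos : 0 < l := by linarith
  have h2pos : 0 < Real.log 2 := Real.log_pos (by norm_num)
  have h2le : Real.log 2 ≤ 1 := by
    have := Real.log_le_sub_one_of_pos (show (0 : ℝ) < 2 by norm_num)
    linarith
  have h1δ : 0 < 1 - δ := by linarith
  set Q : ℕ := ⌈L ^ (1 / (1 - δ))⌉₊ with hQ
  have hLb1 : 1 ≤ L ^ (1 / (1 - δ)) := Real.one_le_rpow h1 (by positivity)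
  have hQge : L ^ (1 / (1 - δ)) ≤ Q := Nat.le_ceil _
  have hQle : (Q : ℝ) ≤ 2 * L ^ (1 / (1 - δ)) := by
    have := (Nat.ceil_lt_add_one (show 0 ≤ L ^ (1 / (1 - δ)) by positivity)).le
    linarith
  have hQ1 : (1 : ℝ) ≤ Q := hLb1.trans hQge
  have hlogQ : Real.log Q ≤ Real.log 2 + l / (1 - δ) := by
    have := Real.log_le_log (by linarith) hQle
    rw [Real.log_mul (by norm_num) (by positivity), Real.log_rpow hLpos] at this
    rw [hl]; convert this using 2; ring
  have hcard : L ≤ ((primesOne Q).card : ℝ) := by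
    refine le_trans ?_ h7
    calc L = (L ^ (1 / (1 - δ))) ^ (1 - δ) := by
          rw [← Real.rpow_mul hLpos.le, one_div, inv_mul_cancel₀ h1δ.ne', Real.rpow_one]
      _ ≤ (Q : ℝ) ^ (1 - δ) := Real.rpow_le_rpow (by positivity) hQge h1δ.le
  set w : ℝ := (1 - δ) ^ 2 * L / l with hw
  have hwpos : 0 ≤ w := by positivity
  set j : ℕ := ⌊w⌋₊ with hj
  have hjle : (j : ℝ) ≤ w := Nat.floor_le hwpos
  have hjgt : w < j + 1 := Nat.lt_floor_add_one _
  have hwL : w ≤ L := by
    rw [hw, div_le_iff₀ hlpos]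
    have : (1 - δ) ^ 2 ≤ 1 := by nlinarith
    nlinarith
  have hjcard : j ≤ (primesOne Q).card := by
    have : (j : ℝ) ≤ ((primesOne Q).card : ℝ) := (hjle.trans hwL).trans hcard
    exact_mod_cast this
  obtain ⟨P, hPsub, hPcard⟩ := Finset.exists_subset_card_eq hjcard
  have hP : ∀ p ∈ P, p.Prime ∧ p % 4 = 1 := by
    intro p hp
    have := hPsub hp
    rw [primesOne, Finset.mem_filter] at this
    exact this.2
  have hPle : ∀ p ∈ P, (p : ℝ) ≤ Q := by
    intro p hp
    have := hPsub hp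
    rw [primesOne, Finset.mem_filter, Finset.mem_Ioc] at this
    exact_mod_cast this.1.2
  have hmain := main_inequality S n hS hD P hP
  rw [hPcard] at hmain
  set D : ℝ := ∏ p ∈ P, (p : ℝ) with hDdef
  set k : ℝ := (S.card : ℝ) with hk
  have hk0 : 0 ≤ k := Nat.cast_nonneg _
  have hDle : D ≤ Real.exp ((1 - δ / 2) * L) := by
    have hD1 : D ≤ (Q : ℝ) ^ j := by
      rw [← hPcard, hDdef]
      calc ∏ p ∈ P, (p : ℝ) ≤ ∏ p ∈ P, (Q : ℝ) :=
            Finset.prod_le_prod (fun p _ => by positivity) hPle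
        _ = (Q : ℝ) ^ P.card := by rw [Finset.prod_const]
    refine hD1.trans ?_
    have hQpos : (0 : ℝ) < Q := by linarith
    rw [← Real.exp_log (pow_pos hQpos j), Real.log_pow]
    apply Real.exp_le_exp.2
    have hlogQ0 : 0 ≤ Real.log Q := Real.log_nonneg hQ1
    calc (j : ℝ) * Real.log Q ≤ w * (Real.log 2 + l / (1 - δ)) :=
          mul_le_mul hjle hlogQ hlogQ0 hwpos
      _ = (1 - δ) * L + (1 - δ) ^ 2 * Real.log 2 / l * L := by
          rw [hw]; field_simp; ring
      _ ≤ (1 - δ) * L + δ / 2 * L := by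
          have h10 : (1 - δ) ^ 2 * Real.log 2 / l ≤ δ / 2 := by
            rw [div_le_iff₀ hlpos]
            have h11 : 2 ≤ l * δ := by rwa [div_le_iff₀ hδ] at h3
            have h12 : (1 - δ) ^ 2 * Real.log 2 ≤ 1 := by
              have : (1 - δ) ^ 2 ≤ 1 := by nlinarith
              calc (1 - δ) ^ 2 * Real.log 2 ≤ 1 * 1 :=
                    mul_le_mul this h2le h2pos.le (by norm_num)
                _ = 1 := by norm_num
            linarith
          have := mul_le_mul_of_nonneg_right h10 hLpos.le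
          linarith
      _ = (1 - δ / 2) * L := by ring
  have hgoal : (n : ℝ) ^ (1 - c / Real.log (Real.log n)) = Real.exp (L - c * L / l) := by
    rw [Real.rpow_def_of_pos hnpos, ← hL, ← hl]
    congr 1
    field_simp
  rw [hgoal]
  have hcl : c * L / l ≤ δ / 4 * L := by
    have h11 : 4 * |c| ≤ l * δ := by rwa [div_le_iff₀ hδ] at h4
    have h12 : c ≤ |c| := le_abs_self c
    rw [div_le_iff₀ hlpos]
    have h13 : c ≤ δ / 4 * l := by linarith
    have := mul_le_mul_of_nonneg_right h13 hLpos.le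
    linarith
  rcases le_or_gt k (2 * D) with hcase | hcase
  · refine hcase.trans ?_
    calc 2 * D ≤ 2 * Real.exp ((1 - δ / 2) * L) := by linarith
      _ = Real.exp (Real.log 2 + (1 - δ / 2) * L) := by
          rw [Real.exp_add, Real.exp_log (by norm_num)]
      _ ≤ Real.exp (L - c * L / l) := by
          apply Real.exp_le_exp.2
          have h14 : 4 ≤ L * δ := by rwa [div_le_iff₀ hδ] at h5
          have h15 : (1 - δ / 2) * L = L - L * δ / 2 := by ring
          have h16 : δ / 4 * L = L * δ / 4 := by ring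
          rw [h15]
          rw [h16] at hcl
          linarith only [h14, hcl, h2le]
  · have hk2 : k ^ 2 / 2 ≤ k * (k - D) := by
      have h40 : k / 2 ≤ k - D := by linarith only [hcase]
      calc k ^ 2 / 2 = k * (k / 2) := by ring
        _ ≤ k * (k - D) := mul_le_mul_of_nonneg_left h40 hk0
    have h20 : (2 : ℝ) ^ j * (k ^ 2 / 2) ≤ 4 * (n : ℝ) ^ 2 * (j + 1) :=
      (mul_le_mul_of_nonneg_left hk2 (by positivity)).trans hmain
    have h21 : k ^ 2 ≤ Real.exp (2 * (L - c * L / l)) := by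
      have h22 : (2 : ℝ) ^ j = Real.exp (j * Real.log 2) := by
        rw [← Real.log_pow, Real.exp_log (by positivity)]
      have h23 : (n : ℝ) ^ 2 = Real.exp (2 * L) := by
        rw [hnexp, ← Real.exp_nat_mul]
        congr 1
      have h24 : ((j : ℝ) + 1) ≤ Real.exp (Real.log 2 + l) := by
        rw [Real.exp_add, Real.exp_log (by norm_num), hl, Real.exp_log hLpos]
        linarith
      have h25 : (8 : ℝ) = Real.exp (3 * Real.log 2) := by
        rw [← Real.exp_log (show (0 : ℝ) < 8 by norm_num)]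
        congr 1
        rw [show (8 : ℝ) = 2 ^ 3 by norm_num, Real.log_pow]
        norm_num
      have h26 : Real.exp (j * Real.log 2) * k ^ 2 ≤
          Real.exp (3 * Real.log 2 + 2 * L + (Real.log 2 + l)) := by
        rw [Real.exp_add, Real.exp_add, ← h25, ← h23, ← h22]
        have h41 : 8 * (n : ℝ) ^ 2 * (j + 1) ≤ 8 * (n : ℝ) ^ 2 * Real.exp (Real.log 2 + l) :=
          mul_le_mul_of_nonneg_left h24 (by positivity)
        refine le_trans ?_ h41
        calc (2 : ℝ) ^ j * k ^ 2 = 2 * ((2 : ℝ) ^ j * (k ^ 2 / 2)) := by ring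
          _ ≤ 2 * (4 * (n : ℝ) ^ 2 * (j + 1)) := mul_le_mul_of_nonneg_left h20 (by norm_num)
          _ = 8 * (n : ℝ) ^ 2 * (j + 1) := by ring
      have h27 : k ^ 2 ≤ Real.exp (3 * Real.log 2 + 2 * L + (Real.log 2 + l) - j * Real.log 2) := by
        rw [Real.exp_sub, le_div_iff₀ (Real.exp_pos _), mul_comm]
        exact h26
      refine h27.trans (Real.exp_le_exp.2 ?_)
      have h28 : w * Real.log 2 - Real.log 2 ≤ j * Real.log 2 := by
        have h42 : w - 1 ≤ j := by linarith only [hjgt]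
        calc w * Real.log 2 - Real.log 2 = (w - 1) * Real.log 2 := by ring
          _ ≤ j * Real.log 2 := mul_le_mul_of_nonneg_right h42 h2pos.le
      have h29 : l + 5 ≤ w * Real.log 2 - 2 * (c * L / l) := by
        have h30 : w * Real.log 2 - 2 * (c * L / l) =
            (((1 - δ) ^ 2 * Real.log 2 - 2 * c) * L) / l := by
          rw [hw]; field_simp
        rw [h30, le_div_iff₀ hlpos]
        calc (l + 5) * l = l ^ 2 + 5 * l := by ring
          _ ≤ _ := h6
      have h43 : 2 * (L - c * L / l) = 2 * L - 2 * (c * L / l) := by ring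
      rw [h43]
      linarith only [h28, h29, h2le]
    have h31 : Real.exp (2 * (L - c * L / l)) = (Real.exp (L - c * L / l)) ^ 2 := by
      rw [← Real.exp_nat_mul]; push_cast; rfl
    rw [h31] at h21
    exact le_of_sq_le_sq h21 (Real.exp_pos _).le

end Pool.Agent.H41
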