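import Mathlib

/-!
# Quantitative supply of primes congruent to one modulo four

Elementary Mertens-type estimate for the character modulo four, and the consequence that for
every `δ > 0` there are at least `N ^ (1 - δ)` primes `p ≤ N` with `p % 4 = 1`, for all large `N`.
-/

namespace Pool.Agent.H41

open Finset Real

/-- alternating sums of nonnegative antitone sequences lie between `0` and the first term -/
lemma alt_sum_bounds (k : ℕ) : ∀ (a : ℕ → ℝ), Antitone a → (∀ i, 0 ≤ a i) →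
    0 ≤ ∑ i ∈ range k, (-1 : ℝ)^i * a i ∧ ∑ i ∈ range k, (-1 : ℝ)^i * a i ≤ a 0 := by
  induction k with
  | zero => intro a _ h0; simpa using h0 0
  | succ k ih =>
    intro a ha h0
    have := ih (fun i => a (i+1)) (fun i j hij => ha (by omega)) (fun i => h0 _)
    rw [Finset.sum_range_succ']
    have e : ∑ i ∈ range k, (-1 : ℝ)^(i+1) * a (i+1) = - ∑ i ∈ range k, (-1 : ℝ)^i * a (i+1) := by
      rw [← Finset.sum_neg_distrib]; refine Finset.sum_congr rfl fun i _ => by ring
    rw [e]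
    have h1 : a 1 ≤ a 0 := ha (by omega)
    simp only [zero_add] at this
    constructor
    · simp only [pow_zero, one_mul]; linarith [this.1, this.2]
    · simp only [pow_zero, one_mul]; linarith [this.1, this.2]

/-- the nontrivial character modulo four, real valued -/
noncomputable def X (n : ℕ) : ℝ := ((ZMod.χ₄ (n : ZMod 4) : ℤ) : ℝ)

lemma X_odd (k : ℕ) : X (2 * k + 1) = (-1 : ℝ) ^ k := by
  unfold X
  rw [ZMod.χ₄_eq_neg_one_pow (by omega)]
  have : (2 * k + 1) / 2 = k := by omega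
  rw [this]; push_cast; rfl

lemma X_even (k : ℕ) : X (2 * k) = 0 := by
  unfold X
  rw [ZMod.χ₄_nat_eq_if_mod_four]
  simp

lemma X_mul (m n : ℕ) : X (m * n) = X m * X n := by
  unfold X
  push_cast
  rw [map_mul]
  push_cast
  rfl

lemma abs_X_le (n : ℕ) : |X n| ≤ 1 := by
  rcases Nat.even_or_odd' n with ⟨k, rfl | rfl⟩
  · rw [X_even]; simp
  · rw [X_odd]; simp

lemma sum_X (f : ℕ → ℝ) (N : ℕ) :
    ∑ m ∈ Ioc 0 N, X m * f m = ∑ i ∈ range ((N + 1) / 2), (-1 : ℝ) ^ i * f (2 * i + 1) := by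
  induction N with
  | zero => simp
  | succ N ih =>
    rw [Finset.sum_Ioc_succ_top (by omega), ih]
    rcases Nat.even_or_odd' N with ⟨k, rfl | rfl⟩
    · rw [show (2 * k + 1 + 1) / 2 = k + 1 by omega, show (2 * k + 1) / 2 = k by omega,
        Finset.sum_range_succ, X_odd]
    · rw [show (2 * k + 1 + 1 + 1) / 2 = k + 1 by omega, show (2 * k + 1 + 1) / 2 = k + 1 by omega,
        show 2 * k + 1 + 1 = 2 * (k + 1) by ring, X_even]
      simp

lemma leibniz_error (k : ℕ) :
    |∑ i ∈ range k, (-1 : ℝ) ^ i * (1 / (2 * (i : ℝ) + 1)) - π / 4| ≤ 1 / (2 * (k : ℝ) + 1) := by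
  have hlim := Real.tendsto_sum_pi_div_four
  have h1 : ∀ K, k ≤ K → |∑ i ∈ range k, (-1 : ℝ) ^ i * (1 / (2 * (i : ℝ) + 1)) -
      ∑ i ∈ range K, (-1 : ℝ) ^ i / (2 * (i : ℝ) + 1)| ≤ 1 / (2 * (k : ℝ) + 1) := by
    intro K hK
    obtain ⟨r, rfl⟩ := Nat.exists_eq_add_of_le hK
    rw [Finset.sum_range_add]
    have e1 : ∑ i ∈ range k, (-1 : ℝ) ^ i * (1 / (2 * (i : ℝ) + 1)) =
        ∑ i ∈ range k, (-1 : ℝ) ^ i / (2 * (i : ℝ) + 1) :=
      Finset.sum_congr rfl fun i _ => by ring
    have e2 : ∑ i ∈ range r, (-1 : ℝ) ^ (k + i) / (2 * ((k + i : ℕ) : ℝ) + 1) =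
        (-1 : ℝ) ^ k * ∑ i ∈ range r, (-1 : ℝ) ^ i * (1 / (2 * ((k + i : ℕ) : ℝ) + 1)) := by
      rw [Finset.mul_sum]
      exact Finset.sum_congr rfl fun i _ => by rw [pow_add]; ring
    rw [e1, e2, sub_add_cancel_left, abs_neg, abs_mul]
    have h2 := alt_sum_bounds r (fun i => 1 / (2 * ((k + i : ℕ) : ℝ) + 1))
      (fun i j hij => by
        apply one_div_le_one_div_of_le (by positivity)
        have : ((k + i : ℕ) : ℝ) ≤ ((k + j : ℕ) : ℝ) := by exact_mod_cast (by omega)
        linarith) (fun i => by positivity)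
    simp only [add_zero] at h2
    rw [abs_pow, abs_neg, abs_one, one_pow, one_mul, abs_of_nonneg h2.1]
    exact h2.2
  have h3 : Filter.Tendsto (fun K => |∑ i ∈ range k, (-1 : ℝ) ^ i * (1 / (2 * (i : ℝ) + 1)) -
      ∑ i ∈ range K, (-1 : ℝ) ^ i / (2 * (i : ℝ) + 1)|) Filter.atTop
      (nhds |∑ i ∈ range k, (-1 : ℝ) ^ i * (1 / (2 * (i : ℝ) + 1)) - π / 4|) :=
    (hlim.const_sub _).abs
  refine le_of_tendsto h3 ?_
  filter_upwards [Filter.eventually_ge_atTop k] with K hK using h1 K hK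

lemma H_error (M : ℕ) :
    |∑ m ∈ Ioc 0 M, X m * (1 / (m : ℝ)) - π / 4| ≤ 1 / ((M : ℝ) + 1) := by
  rw [sum_X]
  have h := leibniz_error ((M + 1) / 2)
  have e : ∑ i ∈ range ((M + 1) / 2), (-1 : ℝ) ^ i * (1 / ((2 * i + 1 : ℕ) : ℝ)) =
      ∑ i ∈ range ((M + 1) / 2), (-1 : ℝ) ^ i * (1 / (2 * (i : ℝ) + 1)) :=
    Finset.sum_congr rfl fun i _ => by push_cast; ring
  rw [e]
  refine h.trans ?_
  apply one_div_le_one_div_of_le (by positivity)
  have : (M : ℝ) ≤ 2 * (((M + 1) / 2 : ℕ) : ℝ) := by exact_mod_cast (by omega)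
  linarith

lemma sum_X_log_bound (N : ℕ) :
    |∑ m ∈ Ioc 0 N, X m * (Real.log m / m)| ≤ 1 := by
  rw [sum_X]
  rcases Nat.eq_zero_or_pos ((N + 1) / 2) with h0 | h0
  · rw [h0]; simp
  · obtain ⟨r, hr⟩ : ∃ r, (N + 1) / 2 = r + 1 := ⟨(N + 1) / 2 - 1, by omega⟩
    rw [hr, Finset.sum_range_succ']
    have e : ∑ i ∈ range r, (-1 : ℝ) ^ (i + 1) *
        (Real.log ((2 * (i + 1) + 1 : ℕ) : ℝ) / ((2 * (i + 1) + 1 : ℕ) : ℝ)) =
        - ∑ i ∈ range r, (-1 : ℝ) ^ i *
        (Real.log ((2 * (i + 1) + 1 : ℕ) : ℝ) / ((2 * (i + 1) + 1 : ℕ) : ℝ)) := by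
      rw [← Finset.sum_neg_distrib]; exact Finset.sum_congr rfl fun i _ => by ring
    rw [e]
    have hexp : Real.exp 1 ≤ 3 := by
      have := Real.exp_one_lt_d9
      linarith
    have h2 := alt_sum_bounds r
      (fun i => Real.log ((2 * (i + 1) + 1 : ℕ) : ℝ) / ((2 * (i + 1) + 1 : ℕ) : ℝ))
      (fun i j hij => by
        apply Real.log_div_self_antitoneOn
        · show Real.exp 1 ≤ ((2 * (i + 1) + 1 : ℕ) : ℝ)
          refine hexp.trans ?_
          exact_mod_cast (by omega)
        · show Real.exp 1 ≤ ((2 * (j + 1) + 1 : ℕ) : ℝ)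
          refine hexp.trans ?_
          exact_mod_cast (by omega)
        · exact_mod_cast (by omega)) (fun i => by positivity)
    simp only [pow_zero, mul_zero, zero_add, Nat.cast_one, Real.log_one, zero_div, add_zero,
      abs_neg]
    rw [abs_of_nonneg h2.1]
    refine h2.2.trans ?_
    norm_num
    rw [div_le_one (by norm_num)]
    have := Real.log_le_sub_one_of_pos (show (0 : ℝ) < 3 by norm_num)
    linarith

/-- the arithmetic function `χ(n) Λ(n) / n` -/
noncomputable def fA : ArithmeticFunction ℝ :=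
  ⟨fun n => X n * (ArithmeticFunction.vonMangoldt n / n), by simp⟩

/-- the arithmetic function `χ(n) / n` -/
noncomputable def gA : ArithmeticFunction ℝ :=
  ⟨fun n => X n * (1 / n), by simp⟩

lemma fA_mul_gA (n : ℕ) : (fA * gA) n = X n * (Real.log n / n) := by
  rw [ArithmeticFunction.mul_apply]
  rcases Nat.eq_zero_or_pos n with rfl | hn
  · simp
  have h : ∀ x ∈ n.divisorsAntidiagonal, fA x.1 * gA x.2 =
      X n * (ArithmeticFunction.vonMangoldt x.1) * (1 / (n : ℝ)) := by
    intro x hx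
    rw [Nat.mem_divisorsAntidiagonal] at hx
    have hx1 : (x.1 : ℝ) ≠ 0 := by
      have : x.1 ≠ 0 := fun h => hx.2 (by rw [← hx.1, h, zero_mul])
      exact_mod_cast this
    have hx2 : (x.2 : ℝ) ≠ 0 := by
      have : x.2 ≠ 0 := fun h => hx.2 (by rw [← hx.1, h, mul_zero])
      exact_mod_cast this
    have hc : (n : ℝ) = (x.1 : ℝ) * (x.2 : ℝ) := by rw [← hx.1]; push_cast; rfl
    have hX : X n = X x.1 * X x.2 := by rw [← X_mul, hx.1]
    show (X x.1 * (ArithmeticFunction.vonMangoldt x.1 / x.1)) * (X x.2 * (1 / x.2)) = _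
    rw [hX, hc]
    field_simp
  rw [Finset.sum_congr rfl h, ← Finset.sum_mul, ← Finset.mul_sum]
  have h2 : ∑ x ∈ n.divisorsAntidiagonal, ArithmeticFunction.vonMangoldt x.1 = Real.log n := by
    rw [Nat.sum_divisorsAntidiagonal (fun i _ => ArithmeticFunction.vonMangoldt i)]
    exact ArithmeticFunction.vonMangoldt_sum
  rw [h2]; ring

/-- the constant in Chebyshev's bound -/
noncomputable def c0 : ℝ := Real.log 4 + 4

lemma c0_pos : 0 < c0 := by
  have : 0 < Real.log 4 := Real.log_pos (by norm_num)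
  unfold c0; linarith

lemma psi_bound (N : ℕ) : ∑ d ∈ Ioc 0 N, ArithmeticFunction.vonMangoldt d ≤ c0 * N := by
  have := Chebyshev.psi_le_const_mul_self (x := (N : ℝ)) (by positivity)
  unfold Chebyshev.psi at this
  rwa [Nat.floor_natCast] at this

lemma A_bound (N : ℕ) :
    |∑ d ∈ Ioc 0 N, X d * (ArithmeticFunction.vonMangoldt d / d)| ≤ (1 + c0) * 4 / Real.pi := by
  have hid : ∑ m ∈ Ioc 0 N, X m * (Real.log m / m) =
      ∑ d ∈ Ioc 0 N, X d * (ArithmeticFunction.vonMangoldt d / d) *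
        ∑ e ∈ Ioc 0 (N / d), X e * (1 / (e : ℝ)) := by
    have := ArithmeticFunction.sum_Ioc_mul_eq_sum_sum fA gA N
    simp only [fA_mul_gA] at this
    exact this
  have hsplit : ∑ d ∈ Ioc 0 N, X d * (ArithmeticFunction.vonMangoldt d / d) *
        ∑ e ∈ Ioc 0 (N / d), X e * (1 / (e : ℝ)) =
      (∑ d ∈ Ioc 0 N, X d * (ArithmeticFunction.vonMangoldt d / d)) * (Real.pi / 4) +
      ∑ d ∈ Ioc 0 N, X d * (ArithmeticFunction.vonMangoldt d / d) *
        (∑ e ∈ Ioc 0 (N / d), X e * (1 / (e : ℝ)) - Real.pi / 4) := by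
    rw [Finset.sum_mul, ← Finset.sum_add_distrib]
    exact Finset.sum_congr rfl fun d _ => by ring
  have herr : |∑ d ∈ Ioc 0 N, X d * (ArithmeticFunction.vonMangoldt d / d) *
        (∑ e ∈ Ioc 0 (N / d), X e * (1 / (e : ℝ)) - Real.pi / 4)| ≤ c0 := by
    rcases Nat.eq_zero_or_pos N with rfl | hN
    · simp; exact c0_pos.le
    refine (Finset.abs_sum_le_sum_abs _ _).trans ?_
    have hN' : (0 : ℝ) < N := by exact_mod_cast hN
    calc ∑ d ∈ Ioc 0 N, |X d * (ArithmeticFunction.vonMangoldt d / d) *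
          (∑ e ∈ Ioc 0 (N / d), X e * (1 / (e : ℝ)) - Real.pi / 4)|
        ≤ ∑ d ∈ Ioc 0 N, ArithmeticFunction.vonMangoldt d * (1 / (N : ℝ)) := by
          refine Finset.sum_le_sum fun d hd => ?_
          rw [Finset.mem_Ioc] at hd
          have hd' : (0 : ℝ) < d := by exact_mod_cast hd.1
          have hL : 0 ≤ ArithmeticFunction.vonMangoldt d := ArithmeticFunction.vonMangoldt_nonneg
          rw [abs_mul, abs_mul, abs_of_nonneg (div_nonneg hL hd'.le)]
          have h1 := H_error (N / d)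
          have h2 : (1 : ℝ) / ((N / d : ℕ) + 1) ≤ d / N := by
            rw [div_le_div_iff₀ (by positivity) hN', one_mul]
            have : N < d * (N / d + 1) := Nat.lt_mul_div_succ N hd.1
            have h3 : (N : ℝ) < d * ((N / d : ℕ) + 1) := by exact_mod_cast this
            exact h3.le
          calc |X d| * (ArithmeticFunction.vonMangoldt d / d) *
                |∑ e ∈ Ioc 0 (N / d), X e * (1 / (e : ℝ)) - Real.pi / 4|
              ≤ 1 * (ArithmeticFunction.vonMangoldt d / d) * (d / N) := by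
                apply mul_le_mul
                · exact mul_le_mul_of_nonneg_right (abs_X_le d) (div_nonneg hL hd'.le)
                · exact h1.trans h2
                · exact abs_nonneg _
                · positivity
            _ = ArithmeticFunction.vonMangoldt d * (1 / (N : ℝ)) := by
                field_simp
      _ = (∑ d ∈ Ioc 0 N, ArithmeticFunction.vonMangoldt d) * (1 / (N : ℝ)) := by
          rw [Finset.sum_mul]
      _ ≤ (c0 * N) * (1 / (N : ℝ)) := by
          exact mul_le_mul_of_nonneg_right (psi_bound N) (by positivity)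
      _ = c0 := by field_simp
  have hlog := sum_X_log_bound N
  rw [hid, hsplit] at hlog
  have hpi := Real.pi_pos
  set A := ∑ d ∈ Ioc 0 N, X d * (ArithmeticFunction.vonMangoldt d / d)
  set E := ∑ d ∈ Ioc 0 N, X d * (ArithmeticFunction.vonMangoldt d / d) *
        (∑ e ∈ Ioc 0 (N / d), X e * (1 / (e : ℝ)) - Real.pi / 4)
  have h3 : |A * (Real.pi / 4)| ≤ 1 + c0 := by
    have : A * (Real.pi / 4) = (A * (Real.pi / 4) + E) - E := by ring
    rw [this]
    exact (abs_sub _ _).trans (add_le_add hlog herr)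
  rw [abs_mul, abs_of_pos (by positivity : (0 : ℝ) < Real.pi / 4)] at h3
  rw [le_div_iff₀ hpi]
  linarith

lemma log_factorial_eq (N : ℕ) :
    ∑ m ∈ Ioc 0 N, Real.log m =
      ∑ d ∈ Ioc 0 N, ArithmeticFunction.vonMangoldt d * ((N / d : ℕ) : ℝ) := by
  have := ArithmeticFunction.sum_Ioc_mul_zeta_eq_sum ArithmeticFunction.vonMangoldt N
  rw [ArithmeticFunction.vonMangoldt_mul_zeta] at this
  simpa [ArithmeticFunction.log_apply] using this

lemma sum_log_eq (N : ℕ) : ∑ m ∈ Ioc 0 N, Real.log m = Real.log (N.factorial) := by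
  induction N with
  | zero => simp
  | succ N ih =>
    rw [Finset.sum_Ioc_succ_top (by omega), ih, Nat.factorial_succ]
    push_cast
    rw [Real.log_mul (by positivity) (by positivity)]
    ring

lemma B_upper (N : ℕ) (hN : 0 < N) :
    ∑ d ∈ Ioc 0 N, ArithmeticFunction.vonMangoldt d / d ≤ Real.log N + c0 := by
  have hN' : (0 : ℝ) < N := by exact_mod_cast hN
  have h1 : ∑ m ∈ Ioc 0 N, Real.log m ≤ N * Real.log N := by
    calc ∑ m ∈ Ioc 0 N, Real.log m ≤ ∑ m ∈ Ioc 0 N, Real.log N := by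
          refine Finset.sum_le_sum fun m hm => ?_
          rw [Finset.mem_Ioc] at hm
          exact Real.log_le_log (by exact_mod_cast hm.1) (by exact_mod_cast hm.2)
      _ = N * Real.log N := by simp
  rw [log_factorial_eq] at h1
  have h2 : ∑ d ∈ Ioc 0 N, ArithmeticFunction.vonMangoldt d * ((N : ℝ) / d - 1) ≤
      ∑ d ∈ Ioc 0 N, ArithmeticFunction.vonMangoldt d * ((N / d : ℕ) : ℝ) := by
    refine Finset.sum_le_sum fun d hd => ?_
    rw [Finset.mem_Ioc] at hd
    have hd' : (0 : ℝ) < d := by exact_mod_cast hd.1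
    refine mul_le_mul_of_nonneg_left ?_ ArithmeticFunction.vonMangoldt_nonneg
    have : N < d * (N / d + 1) := Nat.lt_mul_div_succ N hd.1
    have h3 : (N : ℝ) < d * ((N / d : ℕ) + 1) := by exact_mod_cast this
    have h4 : (N : ℝ) / d < (N / d : ℕ) + 1 := by
      rw [div_lt_iff₀ hd']; linarith
    linarith
  have h3 : ∑ d ∈ Ioc 0 N, ArithmeticFunction.vonMangoldt d * ((N : ℝ) / d - 1) =
      N * ∑ d ∈ Ioc 0 N, ArithmeticFunction.vonMangoldt d / d -
        ∑ d ∈ Ioc 0 N, ArithmeticFunction.vonMangoldt d := by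
    rw [Finset.mul_sum, ← Finset.sum_sub_distrib]
    exact Finset.sum_congr rfl fun d _ => by ring
  have h4 := psi_bound N
  have h5 : N * ∑ d ∈ Ioc 0 N, ArithmeticFunction.vonMangoldt d / d ≤
      N * (Real.log N + c0) := by
    rw [h3] at h2
    nlinarith
  exact le_of_mul_le_mul_left h5 hN'

lemma B_lower (N : ℕ) (hN : 0 < N) :
    Real.log N - 1 ≤ ∑ d ∈ Ioc 0 N, ArithmeticFunction.vonMangoldt d / d := by
  have hN' : (0 : ℝ) < N := by exact_mod_cast hN
  have h1 : (N : ℝ) * Real.log N - N ≤ Real.log (N.factorial) := by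
    have := Real.pow_div_factorial_le_exp (N : ℝ) hN'.le N
    have hf : (0 : ℝ) < N.factorial := by positivity
    have h2 := Real.log_le_log (by positivity) this
    rw [Real.log_exp, Real.log_div (by positivity) (by positivity), Real.log_pow] at h2
    linarith
  rw [← sum_log_eq, log_factorial_eq] at h1
  have h2 : ∑ d ∈ Ioc 0 N, ArithmeticFunction.vonMangoldt d * ((N / d : ℕ) : ℝ) ≤
      ∑ d ∈ Ioc 0 N, ArithmeticFunction.vonMangoldt d * ((N : ℝ) / d) := by
    refine Finset.sum_le_sum fun d hd => ?_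
    exact mul_le_mul_of_nonneg_left Nat.cast_div_le ArithmeticFunction.vonMangoldt_nonneg
  have h3 : ∑ d ∈ Ioc 0 N, ArithmeticFunction.vonMangoldt d * ((N : ℝ) / d) =
      N * ∑ d ∈ Ioc 0 N, ArithmeticFunction.vonMangoldt d / d := by
    rw [Finset.mul_sum]
    exact Finset.sum_congr rfl fun d _ => by ring
  have h5 : N * (Real.log N - 1) ≤
      N * ∑ d ∈ Ioc 0 N, ArithmeticFunction.vonMangoldt d / d := by
    rw [h3] at h2
    nlinarith
  exact le_of_mul_le_mul_left h5 hN'

/-- non-primes contribute a bounded amount -/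
lemma exists_nonprime_bound : ∃ C : ℝ, 0 ≤ C ∧ ∀ N : ℕ,
    ∑ d ∈ Ioc 0 N, (if d.Prime then 0 else ArithmeticFunction.vonMangoldt d) / (d : ℝ) ≤ C := by
  have hs := ArithmeticFunction.vonMangoldt.summable_residueClass_non_primes_div (0 : ZMod 1)
  have he : ∀ n : ℕ, ArithmeticFunction.vonMangoldt.residueClass (0 : ZMod 1) n =
      ArithmeticFunction.vonMangoldt n := by
    intro n
    unfold ArithmeticFunction.vonMangoldt.residueClass
    rw [Set.indicator_of_mem]
    show ((n : ZMod 1)) = 0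
    exact Subsingleton.elim _ _
  simp only [he] at hs
  have h0 : ∀ n : ℕ, 0 ≤ (if n.Prime then 0 else ArithmeticFunction.vonMangoldt n) / (n : ℝ) := by
    intro n
    apply div_nonneg _ (by positivity)
    split_ifs
    · exact le_rfl
    · exact ArithmeticFunction.vonMangoldt_nonneg
  refine ⟨∑' n : ℕ, (if n.Prime then 0 else ArithmeticFunction.vonMangoldt n) / (n : ℝ),
    tsum_nonneg h0, fun N => ?_⟩
  exact hs.sum_le_tsum _ (fun n _ => h0 n)

/-- primes congruent to one modulo four up to `N` -/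
def primesOne (N : ℕ) : Finset ℕ := (Ioc 0 N).filter (fun p => p.Prime ∧ p % 4 = 1)

/-- Mertens estimate for primes congruent to one modulo four. -/
lemma exists_mertens : ∃ C : ℝ, 0 ≤ C ∧ ∀ N : ℕ, 0 < N →
    |∑ p ∈ primesOne N, Real.log p / p - Real.log N / 2| ≤ C := by
  obtain ⟨C, hC, hnp⟩ := exists_nonprime_bound
  have hpi := Real.pi_pos
  have hc0 := c0_pos
  refine ⟨(c0 + 1 + C) / 2 + ((1 + c0) * 4 / Real.pi + C) / 2 + 1, by positivity, fun N hN => ?_⟩
  have key : ∀ d ∈ Ioc 0 N, (if (d.Prime ∧ d % 4 = 1) then Real.log d / d else 0) =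
      ((ArithmeticFunction.vonMangoldt d / d -
        (if d.Prime then 0 else ArithmeticFunction.vonMangoldt d) / (d : ℝ)) +
      (X d * (ArithmeticFunction.vonMangoldt d / d) -
        X d * ((if d.Prime then 0 else ArithmeticFunction.vonMangoldt d) / (d : ℝ)))) / 2 -
      (if d = 2 then Real.log 2 / 4 else 0) := by
    intro d hd
    by_cases hp : d.Prime
    · simp only [hp, true_and, if_true, zero_div, mul_zero, sub_zero]
      rw [ArithmeticFunction.vonMangoldt_apply_prime hp]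
      rcases Nat.even_or_odd' d with ⟨k, hk | hk⟩
      · have h2 : d = 2 := (Nat.Prime.even_iff hp).1 ⟨k, by omega⟩
        subst h2
        have : X 2 = 0 := X_even 1
        rw [this]; norm_num; ring
      · have h2 : d ≠ 2 := by omega
        rw [if_neg h2]
        have hX : X d = (-1 : ℝ) ^ k := by rw [hk]; exact X_odd k
        rcases Nat.even_or_odd' k with ⟨l, hl | hl⟩
        · have h4 : d % 4 = 1 := by omega
          rw [if_pos h4, hX, hl, pow_mul]; norm_num
        · have h4 : ¬ d % 4 = 1 := by omega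
          rw [if_neg h4, hX, hl, pow_succ, pow_mul]; norm_num
    · have h2 : d ≠ 2 := by rintro rfl; exact hp Nat.prime_two
      simp [hp, h2]
  have hsum : ∑ p ∈ primesOne N, Real.log p / p =
      ((∑ d ∈ Ioc 0 N, ArithmeticFunction.vonMangoldt d / d -
        ∑ d ∈ Ioc 0 N, (if d.Prime then 0 else ArithmeticFunction.vonMangoldt d) / (d : ℝ)) +
      (∑ d ∈ Ioc 0 N, X d * (ArithmeticFunction.vonMangoldt d / d) -
        ∑ d ∈ Ioc 0 N,
          X d * ((if d.Prime then 0 else ArithmeticFunction.vonMangoldt d) / (d : ℝ)))) / 2 -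
      ∑ d ∈ Ioc 0 N, (if d = 2 then Real.log 2 / 4 else 0) := by
    unfold primesOne
    rw [Finset.sum_filter, Finset.sum_congr rfl key, Finset.sum_sub_distrib, ← Finset.sum_div,
      Finset.sum_add_distrib, Finset.sum_sub_distrib, Finset.sum_sub_distrib]
  rw [hsum]
  have hB1 := B_upper N hN
  have hB2 := B_lower N hN
  have hA := abs_le.1 (A_bound N)
  have hn0 : 0 ≤ ∑ d ∈ Ioc 0 N, (if d.Prime then 0 else ArithmeticFunction.vonMangoldt d) / (d : ℝ) := by
    refine Finset.sum_nonneg fun n _ => ?_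
    apply div_nonneg _ (by positivity)
    split_ifs
    · exact le_rfl
    · exact ArithmeticFunction.vonMangoldt_nonneg
  have hn1 := hnp N
  have hX : |∑ d ∈ Ioc 0 N,
          X d * ((if d.Prime then 0 else ArithmeticFunction.vonMangoldt d) / (d : ℝ))| ≤ C := by
    refine (Finset.abs_sum_le_sum_abs _ _).trans (le_trans (Finset.sum_le_sum fun n _ => ?_) hn1)
    have h0 : 0 ≤ (if n.Prime then 0 else ArithmeticFunction.vonMangoldt n) / (n : ℝ) := by
      apply div_nonneg _ (by positivity)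
      split_ifs
      · exact le_rfl
      · exact ArithmeticFunction.vonMangoldt_nonneg
    rw [abs_mul, abs_of_nonneg h0]
    exact mul_le_of_le_one_left h0 (abs_X_le n)
  have hX' := abs_le.1 hX
  have htwo : 0 ≤ ∑ d ∈ Ioc 0 N, (if d = 2 then Real.log 2 / 4 else 0) ∧
      ∑ d ∈ Ioc 0 N, (if d = 2 then Real.log 2 / 4 else 0) ≤ 1 := by
    have hl2 : 0 ≤ Real.log 2 := Real.log_nonneg (by norm_num)
    have hl2' : Real.log 2 ≤ 1 := by
      have := Real.log_le_sub_one_of_pos (show (0 : ℝ) < 2 by norm_num)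
      linarith
    rw [Finset.sum_ite_eq']
    split_ifs
    · constructor <;> linarith
    · constructor <;> norm_num
  rw [abs_le]
  constructor <;> linarith [hA.1, hA.2, hX'.1, hX'.2, htwo.1, htwo.2]

/-- For every `δ > 0` there are at least `N ^ (1 - δ)` primes `p ≤ N`, `p % 4 = 1`, once `N` is
large. -/
theorem eventually_card_primesOne {δ : ℝ} (hδ : 0 < δ) (hδ1 : δ < 1) :
    ∀ᶠ N : ℕ in Filter.atTop, (N : ℝ) ^ (1 - δ) ≤ ((primesOne N).card : ℝ) := by
  obtain ⟨C, hC, hM⟩ := exists_mertens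
  -- use δ/2 and absorb the constant
  have hlim1 : Filter.Tendsto (fun N : ℕ => Real.log (N : ℝ)) Filter.atTop Filter.atTop :=
    Real.tendsto_log_atTop.comp tendsto_natCast_atTop_atTop
  have hlim2 : Filter.Tendsto (fun N : ℕ => (N : ℝ) ^ (δ / 2)) Filter.atTop Filter.atTop :=
    (tendsto_rpow_atTop (by positivity)).comp tendsto_natCast_atTop_atTop
  filter_upwards [hlim1.eventually_ge_atTop (16 * C / δ + 1),
    hlim2.eventually_ge_atTop (16 / δ), Filter.eventually_ge_atTop 1] with N h1 h2 hN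
  have hN0 : 0 < N := hN
  have hN' : (1 : ℝ) ≤ N := by exact_mod_cast hN
  have hNpos : (0 : ℝ) < N := by linarith
  set y : ℕ := ⌊(N : ℝ) ^ (1 - δ / 2)⌋₊ with hy
  have hy1 : (1 : ℝ) ≤ (N : ℝ) ^ (1 - δ / 2) := Real.one_le_rpow hN' (by linarith)
  have hypos : 0 < y := Nat.floor_pos.2 hy1
  have hyle : (y : ℝ) ≤ (N : ℝ) ^ (1 - δ / 2) := Nat.floor_le (by positivity)
  have hylt : (N : ℝ) ^ (1 - δ / 2) < y + 1 := Nat.lt_floor_add_one _
  have hyN : y ≤ N := by
    have : (y : ℝ) ≤ N := hyle.trans (by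
      conv_rhs => rw [← Real.rpow_one (N : ℝ)]
      exact Real.rpow_le_rpow_of_exponent_le hN' (by linarith))
    exact_mod_cast this
  have hlogN : 0 < Real.log N := by
    have : 0 ≤ 16 * C / δ := by positivity
    linarith
  have hlogy : Real.log y ≤ (1 - δ / 2) * Real.log N := by
    rw [← Real.log_rpow hNpos]
    exact Real.log_le_log (by exact_mod_cast hypos) hyle
  have hMN := abs_le.1 (hM N hN0)
  have hMy := abs_le.1 (hM y hypos)
  have hsub : primesOne y ⊆ primesOne N := by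
    unfold primesOne
    exact Finset.filter_subset_filter _ (Finset.Ioc_subset_Ioc_right hyN)
  have hdiff : ∑ p ∈ primesOne N \ primesOne y, Real.log p / p =
      ∑ p ∈ primesOne N, Real.log p / p - ∑ p ∈ primesOne y, Real.log p / p := by
    rw [← Finset.sum_sdiff hsub]; ring
  have hlow : δ / 4 * Real.log N - 2 * C ≤ ∑ p ∈ primesOne N \ primesOne y, Real.log p / p := by
    rw [hdiff]
    linarith [hMN.1, hMN.2, hMy.1, hMy.2]
  have hup : ∑ p ∈ primesOne N \ primesOne y, Real.log p / p ≤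
      ((primesOne N).card : ℝ) * (Real.log N / (N : ℝ) ^ (1 - δ / 2)) := by
    calc ∑ p ∈ primesOne N \ primesOne y, Real.log p / p
        ≤ ∑ p ∈ primesOne N \ primesOne y, Real.log N / (N : ℝ) ^ (1 - δ / 2) := by
          refine Finset.sum_le_sum fun p hp => ?_
          simp only [primesOne, Finset.mem_sdiff, Finset.mem_filter, Finset.mem_Ioc, not_and] at hp
          obtain ⟨⟨⟨hp0, hpN⟩, hpp, hp4⟩, hpy⟩ := hp
          have hyp : y < p := by
            by_contra hcon
            exact hpy ⟨hp0, by omega⟩ hpp hp4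
          have hp1 : (N : ℝ) ^ (1 - δ / 2) ≤ p := by
            have : (y : ℝ) + 1 ≤ p := by exact_mod_cast hyp
            linarith
          have hlogp : Real.log p ≤ Real.log N :=
            Real.log_le_log (by exact_mod_cast hp0) (by exact_mod_cast hpN)
          exact div_le_div₀ hlogN.le hlogp (by positivity) hp1
      _ = ((primesOne N \ primesOne y).card : ℝ) * (Real.log N / (N : ℝ) ^ (1 - δ / 2)) := by
          rw [Finset.sum_const, nsmul_eq_mul]
      _ ≤ ((primesOne N).card : ℝ) * (Real.log N / (N : ℝ) ^ (1 - δ / 2)) := by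
          refine mul_le_mul_of_nonneg_right ?_ (by positivity)
          exact_mod_cast Finset.card_le_card Finset.sdiff_subset
  have h3 : δ / 8 * Real.log N ≤ δ / 4 * Real.log N - 2 * C := by
    have : 16 * C / δ ≤ Real.log N := by linarith
    have h4 : 16 * C ≤ δ * Real.log N := by
      rw [div_le_iff₀ hδ] at this; linarith
    linarith
  have h5 : δ / 8 * Real.log N ≤
      ((primesOne N).card : ℝ) * (Real.log N / (N : ℝ) ^ (1 - δ / 2)) :=
    h3.trans (hlow.trans hup)
  have hpowpos : 0 < (N : ℝ) ^ (1 - δ / 2) := by positivity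
  have h6 : δ / 8 * (N : ℝ) ^ (1 - δ / 2) ≤ ((primesOne N).card : ℝ) := by
    rw [← mul_div_assoc, le_div_iff₀ hpowpos] at h5
    have : (δ / 8 * (N : ℝ) ^ (1 - δ / 2)) * Real.log N ≤ ((primesOne N).card : ℝ) * Real.log N := by
      linarith
    exact le_of_mul_le_mul_right this hlogN
  refine le_trans ?_ h6
  have h7 : (N : ℝ) ^ (1 - δ / 2) = (N : ℝ) ^ (1 - δ) * (N : ℝ) ^ (δ / 2) := by
    rw [← Real.rpow_add hNpos]; ring_nf
  rw [h7]
  have h8 : 1 ≤ δ / 8 * (N : ℝ) ^ (δ / 2) := by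
    have : δ / 8 * (16 / δ) = 2 := by field_simp; norm_num
    have h9 : δ / 8 * (16 / δ) ≤ δ / 8 * (N : ℝ) ^ (δ / 2) :=
      mul_le_mul_of_nonneg_left h2 (by positivity)
    linarith
  have h10 : 0 < (N : ℝ) ^ (1 - δ) := by positivity
  nlinarith

end Pool.Agent.H41
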