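import Pool.Agent.H41.RamseyStep

/-!
# `R(3,k+1) ≥ R(3,k) + 4` for all `k ≥ 4`
-/

namespace Pool.Agent.H41.RamseyStep

open Finset SimpleGraph

section structure_lemma

variable {V : Type*} [Fintype V] {G : SimpleGraph V} {k : ℕ}

lemma exists_four_of_card {α : Type*} {s : Finset α} (h : 4 ≤ s.card) :
    ∃ a b c d, a ∈ s ∧ b ∈ s ∧ c ∈ s ∧ d ∈ s ∧ a ≠ b ∧ a ≠ c ∧ a ≠ d ∧ b ≠ c ∧ b ≠ d ∧ c ≠ d := by
  have h' : Fintype.card (Fin 4) ≤ Fintype.card s := by simpa using h
  obtain ⟨f⟩ := Function.Embedding.nonempty_of_card_le h'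
  have hne : ∀ i j : Fin 4, i ≠ j → (f i : α) ≠ f j := by
    intro i j hij h
    exact hij (f.injective (Subtype.ext h))
  exact ⟨f 0, f 1, f 2, f 3, (f 0).2, (f 1).2, (f 2).2, (f 3).2, hne _ _ (by decide),
    hne _ _ (by decide), hne _ _ (by decide), hne _ _ (by decide), hne _ _ (by decide),
    hne _ _ (by decide)⟩

open Classical in
/-- The structure of the graphs to which none of the three extensions applies. -/
lemma structure_of_not_step (hG : Good G k) (hns : ¬ Fintype.card V + 4 < R (k + 1)) :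
    (∀ a b c d, a ≠ b → G.Adj a c → G.Adj b c → G.Adj a d → G.Adj b d → c = d) ∧
    (∀ d, (univ.filter (fun x => G.Adj d x)).card ≤ 3) ∧
    (∀ v, Fintype.card V ≤ 1 + 3 * (univ.filter (fun x => G.Adj v x)).card) := by
  have hC4 : ∀ a b c d, a ≠ b → G.Adj a c → G.Adj b c → G.Adj a d → G.Adj b d → c = d := by
    intro a b c d hab h1 h2 h3 h4
    by_contra hcd
    exact hns (step_of_C4 hG hab hcd h1 h2 h3 h4)
  have hdeg : ∀ d, (univ.filter (fun x => G.Adj d x)).card ≤ 3 := by
    intro d
    by_contra h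
    push Not at h
    obtain ⟨a, b, a', b', ha, hb, ha', hb', h1, h2, h3, h4, h5, h6⟩ := exists_four_of_card h
    simp only [Finset.mem_filter, Finset.mem_univ, true_and] at ha hb ha' hb'
    exact hns (step_of_star hG hC4 ha.symm hb.symm ha'.symm hb'.symm h1 h2 h3 h4 h5 h6)
  refine ⟨hC4, hdeg, ?_⟩
  intro v
  have hsub : (univ : Finset V) ⊆ insert v ((univ.filter (fun x => G.Adj v x)) ∪
      (univ.filter (fun x => G.Adj v x)).biUnion
        (fun u => (univ.filter (fun x => G.Adj u x)).erase v)) := by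
    intro w _
    by_cases hwv : w = v
    · simp [hwv]
    by_cases hadj : G.Adj v w
    · simp [hadj]
    have : ∃ x, G.Adj v x ∧ G.Adj w x := by
      by_contra hno
      push Not at hno
      exact hns (step_of_far hG (Ne.symm hwv) hadj hno)
    obtain ⟨x, hx1, hx2⟩ := this
    simp only [Finset.mem_insert, Finset.mem_union, Finset.mem_biUnion, Finset.mem_filter,
      Finset.mem_univ, true_and, Finset.mem_erase]
    exact Or.inr (Or.inr ⟨x, hx1, hwv, hx2.symm⟩)
  have h1 := Finset.card_le_card hsub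
  rw [Finset.card_univ] at h1
  have h2 := Finset.card_insert_le v ((univ.filter (fun x => G.Adj v x)) ∪
      (univ.filter (fun x => G.Adj v x)).biUnion
        (fun u => (univ.filter (fun x => G.Adj u x)).erase v))
  have h3 := Finset.card_union_le (univ.filter (fun x => G.Adj v x))
      ((univ.filter (fun x => G.Adj v x)).biUnion
        (fun u => (univ.filter (fun x => G.Adj u x)).erase v))
  have h4 : ((univ.filter (fun x => G.Adj v x)).biUnion
        (fun u => (univ.filter (fun x => G.Adj u x)).erase v)).card ≤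
      (univ.filter (fun x => G.Adj v x)).card * 2 := by
    apply Finset.card_biUnion_le_card_mul
    intro u hu
    simp only [Finset.mem_filter, Finset.mem_univ, true_and] at hu
    have hvu : v ∈ univ.filter (fun x => G.Adj u x) := by
      simp only [Finset.mem_filter, Finset.mem_univ, true_and]
      exact hu.symm
    rw [Finset.card_erase_of_mem hvu]
    have := hdeg u
    omega
  omega

/-- If `G` is good for `k` and has at least eleven vertices, then four vertices can be added. -/
lemma step_of_eleven (hG : Good G k) (hV : 11 ≤ Fintype.card V) :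
    Fintype.card V + 4 < R (k + 1) := by
  classical
  by_contra hns
  obtain ⟨hC4, hdeg, hcard⟩ := structure_of_not_step hG hns
  have : Nonempty V := Fintype.card_pos_iff.1 (by omega)
  obtain ⟨v⟩ := this
  have h1 := hcard v
  have h2 := hdeg v
  omega

/-- If `G` is good for `4` and has at least eight vertices, then four vertices can be added. -/
lemma step_of_eight (hG : Good G 4) (hV : 8 ≤ Fintype.card V) :
    Fintype.card V + 4 < R 5 := by
  classical
  by_contra hns
  obtain ⟨hC4, hdeg, hcard⟩ := structure_of_not_step hG hns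
  have : Nonempty V := Fintype.card_pos_iff.1 (by omega)
  obtain ⟨v⟩ := this
  have hdeg3 : ∀ u, (univ.filter (fun x => G.Adj u x)).card = 3 := by
    intro u
    have h1 := hcard u
    have h2 := hdeg u
    omega
  obtain ⟨u₁, u₂, u₃, h12, h13, h23, hN⟩ := Finset.card_eq_three.1 (hdeg3 v)
  have hu : ∀ x, G.Adj v x ↔ x = u₁ ∨ x = u₂ ∨ x = u₃ := by
    intro x
    have : x ∈ univ.filter (fun x => G.Adj v x) ↔ x ∈ ({u₁, u₂, u₃} : Finset V) := by rw [hN]
    simpa using this
  have hv1 : G.Adj v u₁ := (hu u₁).2 (by simp)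
  have hv2 : G.Adj v u₂ := (hu u₂).2 (by simp)
  have hv3 : G.Adj v u₃ := (hu u₃).2 (by simp)
  have hvu : v ∈ univ.filter (fun x => G.Adj u₁ x) := by
    simp only [Finset.mem_filter, Finset.mem_univ, true_and]
    exact hv1.symm
  have h2 : ((univ.filter (fun x => G.Adj u₁ x)).erase v).card = 2 := by
    rw [Finset.card_erase_of_mem hvu, hdeg3]
  obtain ⟨x, y, hxy, hM⟩ := Finset.card_eq_two.1 h2
  have hmem : ∀ z, (z ≠ v ∧ G.Adj u₁ z) ↔ (z = x ∨ z = y) := by
    intro z
    have : z ∈ (univ.filter (fun x => G.Adj u₁ x)).erase v ↔ z ∈ ({x, y} : Finset V) := by rw [hM]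
    simpa using this
  have hx := (hmem x).2 (Or.inl rfl)
  have hy := (hmem y).2 (Or.inr rfl)
  have hT := hG.1
  -- no vertex `z ≠ v` adjacent to `u₁` is adjacent to `u₂` or `u₃`
  have key : ∀ z u, z ≠ v → G.Adj u₁ z → G.Adj v u → u ≠ u₁ → ¬ G.Adj z u := by
    intro z u hzv h1z hvu' hne hzu
    exact hzv (hC4 u₁ u z v hne.symm h1z hzu.symm hv1.symm hvu'.symm)
  have hneq : ∀ z u, G.Adj u₁ z → G.Adj v u → z ≠ u := by
    rintro z u h1z hvu' rfl
    exact hT v u₁ z hv1 h1z hvu'
  have := hG.2 {x, y, u₂, u₃} (by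
    intro p hp q hq hpq
    simp only [Finset.mem_insert, Finset.mem_singleton] at hp hq
    rcases hp with rfl | rfl | rfl | rfl <;> rcases hq with rfl | rfl | rfl | rfl
    · exact G.loopless.irrefl _ hpq
    · exact hT u₁ p q hx.2 hpq hy.2
    · exact key p q hx.1 hx.2 hv2 h12.symm hpq
    · exact key p q hx.1 hx.2 hv3 h13.symm hpq
    · exact hT u₁ p q hy.2 hpq hx.2
    · exact G.loopless.irrefl _ hpq
    · exact key p q hy.1 hy.2 hv2 h12.symm hpq
    · exact key p q hy.1 hy.2 hv3 h13.symm hpq
    · exact key q p hx.1 hx.2 hv2 h12.symm hpq.symm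
    · exact key q p hy.1 hy.2 hv2 h12.symm hpq.symm
    · exact G.loopless.irrefl _ hpq
    · exact hT v p q hv2 hpq hv3
    · exact key q p hx.1 hx.2 hv3 h13.symm hpq.symm
    · exact key q p hy.1 hy.2 hv3 h13.symm hpq.symm
    · exact hT v p q hv3 hpq hv2
    · exact G.loopless.irrefl _ hpq)
  rw [Finset.card_insert_of_notMem, Finset.card_insert_of_notMem, Finset.card_insert_of_notMem,
    Finset.card_singleton] at this
  · omega
  · simpa using h23
  · simp only [Finset.mem_insert, Finset.mem_singleton, not_or]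
    exact ⟨hneq _ _ hy.2 hv2, hneq _ _ hy.2 hv3⟩
  · simp only [Finset.mem_insert, Finset.mem_singleton, not_or]
    exact ⟨hxy, hneq _ _ hx.2 hv2, hneq _ _ hx.2 hv3⟩

end structure_lemma

section final

lemma R_mono_succ (k : ℕ) : R k ≤ R (k + 1) := by
  rcases Nat.eq_zero_or_pos (R k) with h | h
  · omega
  obtain ⟨G, hG⟩ := exists_good (k := k) (n := R k - 1) (by omega)
  have hG' : Good G (k + 1) := ⟨hG.1, fun s hs => (hG.2 s hs).trans (Nat.lt_succ_self k)⟩
  have := hG'.card_lt
  simp at this
  omega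

lemma R_mono {k l : ℕ} (h : k ≤ l) : R k ≤ R l := monotone_nat_of_le_succ R_mono_succ h

/-- The Wagner graph: the Möbius ladder on eight vertices. -/
def wagner : SimpleGraph (Fin 8) where
  Adj i j := i - j = 1 ∨ i - j = 4 ∨ i - j = 7
  symm := ⟨by decide⟩
  loopless := ⟨by decide⟩

instance : DecidableRel wagner.Adj := fun i j =>
  inferInstanceAs (Decidable (i - j = 1 ∨ i - j = 4 ∨ i - j = 7))

lemma good_wagner : Good wagner 4 := by
  constructor
  · decide
  · intro s hs
    by_contra h
    push Not at h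
    obtain ⟨a, b, c, d, ha, hb, hc, hd, h1, h2, h3, h4, h5, h6⟩ := exists_four_of_card h
    have key : ∀ a b c d : Fin 8, a ≠ b → a ≠ c → a ≠ d → b ≠ c → b ≠ d → c ≠ d →
      wagner.Adj a b ∨ wagner.Adj a c ∨ wagner.Adj a d ∨ wagner.Adj b c ∨ wagner.Adj b d ∨
        wagner.Adj c d := by decide
    rcases key a b c d h1 h2 h3 h4 h5 h6 with h | h | h | h | h | h
    · exact hs a ha b hb h
    · exact hs a ha c hc h
    · exact hs a ha d hd h
    · exact hs b hb c hc h
    · exact hs b hb d hd h
    · exact hs c hc d hd h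

lemma nine_le_R_four : 9 ≤ R 4 := by
  have := good_wagner.card_lt
  simp at this
  omega

lemma R_five_ge : R 4 + 4 ≤ R 5 := by
  have h9 := nine_le_R_four
  obtain ⟨G, hG⟩ := exists_good (k := 4) (n := R 4 - 1) (by omega)
  have := step_of_eight hG (by simp; omega)
  simp at this
  omega

/-- The main step: `R(3,k+1) ≥ R(3,k) + 4` for all `k ≥ 4`. -/
theorem R_succ_ge {k : ℕ} (hk : 4 ≤ k) : R k + 4 ≤ R (k + 1) := by
  rcases hk.eq_or_lt with rfl | hk
  · exact R_five_ge
  have h13 : R 4 + 4 ≤ R 5 := R_five_ge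
  have h9 := nine_le_R_four
  have h5 : R 5 ≤ R k := R_mono hk
  obtain ⟨G, hG⟩ := exists_good (k := k) (n := R k - 1) (by omega)
  have := step_of_eleven hG (by simp; omega)
  simp at this
  omega

end final

end Pool.Agent.H41.RamseyStep
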