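import Mathlib

/-!
# The Ramsey numbers `R(3,k)`: basic facts and four-vertex extensions
-/

namespace Pool.Agent.H41.RamseyStep

open Finset SimpleGraph

/-- `Good G k`: the graph `G` has no triangle, and all its independent sets have fewer than `k`
vertices. -/
def Good {V : Type*} (G : SimpleGraph V) (k : ℕ) : Prop :=
  (∀ a b c, G.Adj a b → G.Adj b c → G.Adj a c → False) ∧
    ∀ s : Finset V, (∀ x ∈ s, ∀ y ∈ s, ¬ G.Adj x y) → s.card < k

/-- The least `n` such that no graph on `n` vertices is good for `k`. -/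
noncomputable def R (k : ℕ) : ℕ := sInf {n : ℕ | ∀ G : SimpleGraph (Fin n), ¬ Good G k}

section basic

variable {V : Type*} {G : SimpleGraph V}

lemma card_le_sq [DecidableEq V] (hT : ∀ a b c, G.Adj a b → G.Adj b c → G.Adj a c → False) :
    ∀ (k : ℕ) (A : Finset V),
      (∀ s ⊆ A, (∀ x ∈ s, ∀ y ∈ s, ¬ G.Adj x y) → s.card < k) → A.card ≤ k * k := by
  classical
  intro k
  induction k with
  | zero =>
    intro A hA
    have := hA ∅ (Finset.empty_subset _) (by simp)
    simp at this
  | succ k ih =>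
    intro A hA
    rcases A.eq_empty_or_nonempty with rfl | ⟨v, hv⟩
    · simp
    have h1 : (A.filter (fun u => G.Adj v u)).card < k + 1 := by
      apply hA _ (Finset.filter_subset _ _)
      intro x hx y hy hxy
      simp only [Finset.mem_filter] at hx hy
      exact hT v x y hx.2 hxy hy.2
    have h2 : (A.filter (fun u => ¬ G.Adj v u ∧ u ≠ v)).card ≤ k * k := by
      apply ih
      intro s hs hind
      have hvs : v ∉ s := by
        intro h
        have := hs h
        simp at this
      have h3 : (insert v s).card < k + 1 := by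
        apply hA
        · intro x hx
          rcases Finset.mem_insert.1 hx with rfl | hx
          · exact hv
          · exact (Finset.mem_filter.1 (hs hx)).1
        · intro x hx y hy hxy
          rcases Finset.mem_insert.1 hx with rfl | hx' <;>
            rcases Finset.mem_insert.1 hy with rfl | hy'
          · exact G.loopless.irrefl _ hxy
          · exact (Finset.mem_filter.1 (hs hy')).2.1 hxy
          · exact (Finset.mem_filter.1 (hs hx')).2.1 hxy.symm
          · exact hind x hx' y hy' hxy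
      rw [Finset.card_insert_of_notMem hvs] at h3
      omega
    have h4 : A ⊆ insert v (A.filter (fun u => G.Adj v u) ∪
        A.filter (fun u => ¬ G.Adj v u ∧ u ≠ v)) := by
      intro x hx
      by_cases hxv : x = v
      · simp [hxv]
      · by_cases hadj : G.Adj v x
        · simp [hx, hadj]
        · simp [hx, hadj, hxv]
    have h5 := Finset.card_le_card h4
    have h6 := Finset.card_insert_le v (A.filter (fun u => G.Adj v u) ∪
        A.filter (fun u => ¬ G.Adj v u ∧ u ≠ v))
    have h7 := Finset.card_union_le (A.filter (fun u => G.Adj v u))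
        (A.filter (fun u => ¬ G.Adj v u ∧ u ≠ v))
    nlinarith

lemma R_spec (k : ℕ) : ∀ G : SimpleGraph (Fin (R k)), ¬ Good G k := by
  have hne : {n : ℕ | ∀ G : SimpleGraph (Fin n), ¬ Good G k}.Nonempty := by
    refine ⟨k * k + 1, ?_⟩
    intro G hG
    have := card_le_sq hG.1 k Finset.univ (fun s _ hs => hG.2 s hs)
    simp at this
  exact Nat.sInf_mem hne

lemma Good.comap {W : Type*} {G : SimpleGraph V} {k : ℕ} (hG : Good G k) (f : W ↪ V) :
    Good (G.comap f) k := by
  refine ⟨fun a b c h1 h2 h3 => hG.1 _ _ _ h1 h2 h3, fun s hs => ?_⟩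
  rw [← Finset.card_map f]
  apply hG.2
  intro x hx y hy
  obtain ⟨x', hx', rfl⟩ := Finset.mem_map.1 hx
  obtain ⟨y', hy', rfl⟩ := Finset.mem_map.1 hy
  exact hs x' hx' y' hy'

/-- A good graph has fewer than `R k` vertices. -/
lemma Good.card_lt [Fintype V] {k : ℕ} (hG : Good G k) : Fintype.card V < R k := by
  by_contra h
  push Not at h
  have : Fintype.card (Fin (R k)) ≤ Fintype.card V := by simpa using h
  obtain ⟨f⟩ := Function.Embedding.nonempty_of_card_le this
  exact R_spec k _ (hG.comap f)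

/-- There is a good graph on `n` vertices for every `n < R k`. -/
lemma exists_good {k n : ℕ} (h : n < R k) : ∃ G : SimpleGraph (Fin n), Good G k := by
  have := Nat.notMem_of_lt_sInf h
  simpa using this

lemma R_pos {k : ℕ} (hk : 0 < k) : 0 < R k := by
  have hG : Good (⊥ : SimpleGraph (Fin 0)) k := by
    refine ⟨fun a => a.elim0, fun s _ => ?_⟩
    have : s = ∅ := Finset.eq_empty_of_isEmpty s
    simpa [this] using hk
  simpa using hG.card_lt

end basic

section extension

variable {V : Type*}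

/-- Attach a four-cycle to `G`; the new vertex `i` is joined to `A i`. -/
def ext (G : SimpleGraph V) (A : Bool × Bool → Set V) : SimpleGraph (V ⊕ (Bool × Bool)) where
  Adj x y := match x, y with
    | .inl u, .inl v => G.Adj u v
    | .inl u, .inr i => u ∈ A i
    | .inr i, .inl u => u ∈ A i
    | .inr i, .inr j => i.1 ≠ j.1
  symm := ⟨by
    rintro (u | i) (v | j) h
    · exact (show G.Adj u v from h).symm
    · exact h
    · exact h
    · exact fun h' => h h'.symm⟩
  loopless := ⟨by
    rintro (u | i) h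
    · exact G.loopless.irrefl u h
    · exact h rfl⟩

lemma good_ext {G : SimpleGraph V} {k : ℕ} (hG : Good G k) {A : Bool × Bool → Set V}
    (hA : ∀ i, ∀ u ∈ A i, ∀ v ∈ A i, ¬ G.Adj u v)
    (hdisj : ∀ i j : Bool × Bool, i.1 ≠ j.1 → ∀ u ∈ A i, u ∉ A j)
    (hred : ∀ p : Bool, ∀ I : Finset V, (∀ x ∈ I, ∀ y ∈ I, ¬ G.Adj x y) →
      (∀ x ∈ I, x ∉ A (p, false) ∧ x ∉ A (p, true)) → I.card + 1 < k) :
    Good (ext G A) (k + 1) := by
  classical
  constructor
  · rintro (a | a) (b | b) (c | c) hab hbc hac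
    · exact hG.1 a b c hab hbc hac
    · exact hA c a hac b hbc hab
    · exact hA b a hab c hbc hac
    · exact hdisj b c hbc a hab hac
    · exact hA a b hab c hac hbc
    · exact hdisj a c hac b hab hbc
    · exact hdisj a b hab c hac hbc
    · have hab' : a.1 ≠ b.1 := hab
      have hbc' : b.1 ≠ c.1 := hbc
      have hac' : a.1 ≠ c.1 := hac
      revert hab' hbc' hac'
      cases a.1 <;> cases b.1 <;> cases c.1 <;> simp
  · intro s hs
    have hcard : s.toLeft.card + s.toRight.card = s.card := Finset.card_toLeft_add_card_toRight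
    have hL : ∀ x ∈ s.toLeft, ∀ y ∈ s.toLeft, ¬ G.Adj x y := by
      intro x hx y hy
      exact hs _ (Finset.mem_toLeft.1 hx) _ (Finset.mem_toLeft.1 hy)
    have hLk := hG.2 _ hL
    have hLR : ∀ i ∈ s.toRight, ∀ x ∈ s.toLeft, x ∉ A i := by
      intro i hi x hx
      exact hs _ (Finset.mem_toLeft.1 hx) _ (Finset.mem_toRight.1 hi)
    have hR : ∀ i ∈ s.toRight, ∀ j ∈ s.toRight, i.1 = j.1 := by
      intro i hi j hj
      by_contra hne
      exact hs _ (Finset.mem_toRight.1 hi) _ (Finset.mem_toRight.1 hj) hne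
    rcases s.toRight.eq_empty_or_nonempty with h0 | ⟨⟨p, q⟩, hpq⟩
    · rw [h0] at hcard
      simp at hcard
      omega
    · have hsub : s.toRight ⊆ {(p, false), (p, true)} := by
        rintro ⟨p', q'⟩ h'
        have := hR _ h' _ hpq
        simp at this
        subst this
        cases q' <;> simp
      by_cases hboth : (p, false) ∈ s.toRight ∧ (p, true) ∈ s.toRight
      · have h1 := hred p s.toLeft hL (fun x hx => ⟨hLR _ hboth.1 x hx, hLR _ hboth.2 x hx⟩)
        have h2 : s.toRight.card ≤ 2 := (Finset.card_le_card hsub).trans Finset.card_le_two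
        omega
      · have h2 : s.toRight.card ≤ 1 := by
          rw [Finset.card_le_one]
          intro a ha b hb
          have ha' := hsub ha
          have hb' := hsub hb
          simp only [Finset.mem_insert, Finset.mem_singleton] at ha' hb'
          rcases ha' with rfl | rfl <;> rcases hb' with rfl | rfl
          · rfl
          · exact absurd ⟨ha, hb⟩ hboth
          · exact absurd ⟨hb, ha⟩ hboth
          · rfl
        omega

/-- The conclusion of the four-vertex extension: it suffices to find two disjoint pairs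
`(A₁, A₂)`, `(B₁, B₂)` of independent sets, each pair meeting every independent set of maximal
size. -/
lemma step_of_pairs [Fintype V] {G : SimpleGraph V} {k : ℕ} (hG : Good G k)
    {A₁ A₂ B₁ B₂ : Set V}
    (hA₁ : ∀ u ∈ A₁, ∀ v ∈ A₁, ¬ G.Adj u v) (hA₂ : ∀ u ∈ A₂, ∀ v ∈ A₂, ¬ G.Adj u v)
    (hB₁ : ∀ u ∈ B₁, ∀ v ∈ B₁, ¬ G.Adj u v) (hB₂ : ∀ u ∈ B₂, ∀ v ∈ B₂, ¬ G.Adj u v)
    (hdisj : ∀ x, (x ∈ A₁ ∨ x ∈ A₂) → (x ∈ B₁ ∨ x ∈ B₂) → False)
    (hA : ∀ I : Finset V, (∀ x ∈ I, ∀ y ∈ I, ¬ G.Adj x y) →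
      (∀ x ∈ I, x ∉ A₁ ∧ x ∉ A₂) → I.card + 1 < k)
    (hB : ∀ I : Finset V, (∀ x ∈ I, ∀ y ∈ I, ¬ G.Adj x y) →
      (∀ x ∈ I, x ∉ B₁ ∧ x ∉ B₂) → I.card + 1 < k) :
    Fintype.card V + 4 < R (k + 1) := by
  let A : Bool × Bool → Set V := fun i =>
    match i with
    | (false, false) => A₁
    | (false, true) => A₂
    | (true, false) => B₁
    | (true, true) => B₂
  have h := good_ext hG (A := A) ?_ ?_ ?_
  · have := h.card_lt
    simpa using this
  · rintro ⟨_ | _, _ | _⟩
    · exact hA₁
    · exact hA₂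
    · exact hB₁
    · exact hB₂
  · rintro ⟨_ | _, _ | _⟩ ⟨_ | _, _ | _⟩ hij u hu hu'
    · simp at hij
    · simp at hij
    · exact hdisj u (Or.inl hu) (Or.inl hu')
    · exact hdisj u (Or.inl hu) (Or.inr hu')
    · simp at hij
    · simp at hij
    · exact hdisj u (Or.inr hu) (Or.inl hu')
    · exact hdisj u (Or.inr hu) (Or.inr hu')
    · exact hdisj u (Or.inl hu') (Or.inl hu)
    · exact hdisj u (Or.inr hu') (Or.inl hu)
    · simp at hij
    · simp at hij
    · exact hdisj u (Or.inl hu') (Or.inr hu)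
    · exact hdisj u (Or.inr hu') (Or.inr hu)
    · simp at hij
    · simp at hij
  · rintro (_ | _)
    · exact hA
    · exact hB

end extension

section reducers

variable {V : Type*} {G : SimpleGraph V} {k : ℕ}

/-- If `a ≠ b` have the common neighbour `d`, then every independent set avoiding
`(N(a) ∪ N(b)) \ {d} ∪ {a}` is not of maximal size. -/
lemma reducer_two (hG : Good G k) {a b d : V} (hab : a ≠ b) (had : G.Adj a d) (hbd : G.Adj b d)
    (I : Finset V) (hI : ∀ x ∈ I, ∀ y ∈ I, ¬ G.Adj x y)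
    (hav : ∀ x ∈ I, x ∉ {x | G.Adj a x ∧ x ≠ d} ∧ x ∉ {x | (G.Adj b x ∧ ¬ G.Adj a x) ∨ x = a}) :
    I.card + 1 < k := by
  classical
  have hnab : ¬ G.Adj a b := fun h => hG.1 a b d h hbd had
  have h1 : ∀ x ∈ I, G.Adj a x → x = d := by
    intro x hx hax
    by_contra hne
    exact (hav x hx).1 ⟨hax, hne⟩
  have h2 : ∀ x ∈ I, G.Adj b x → x = d := by
    intro x hx hbx
    by_cases hax : G.Adj a x
    · exact h1 x hx hax
    · exact absurd (Or.inl ⟨hbx, hax⟩) (hav x hx).2
  have haI : a ∉ I := fun h => (hav a h).2 (Or.inr rfl)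
  have hind : ∀ x ∈ insert a (insert b (I.erase d)), ∀ y ∈ insert a (insert b (I.erase d)),
      ¬ G.Adj x y := by
    intro x hx y hy hxy
    simp only [Finset.mem_insert, Finset.mem_erase] at hx hy
    rcases hx with rfl | rfl | ⟨hxd, hx⟩ <;> rcases hy with rfl | rfl | ⟨hyd, hy⟩
    · exact G.loopless.irrefl _ hxy
    · exact hnab hxy
    · exact hyd (h1 y hy hxy)
    · exact hnab hxy.symm
    · exact G.loopless.irrefl _ hxy
    · exact hyd (h2 y hy hxy)
    · exact hxd (h1 x hx hxy.symm)
    · exact hxd (h2 x hx hxy.symm)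
    · exact hI x hx y hy hxy
  have hlt := hG.2 _ hind
  have hbne : a ∉ insert b (I.erase d) := by
    simp only [Finset.mem_insert, Finset.mem_erase, not_or]
    exact ⟨hab, fun h => haI h.2⟩
  rw [Finset.card_insert_of_notMem hbne] at hlt
  by_cases hdI : d ∈ I
  · have hbI : b ∉ I.erase d := fun h => hI b (Finset.mem_of_mem_erase h) d hdI hbd
    rw [Finset.card_insert_of_notMem hbI, Finset.card_erase_of_mem hdI] at hlt
    have : 0 < I.card := Finset.card_pos.2 ⟨d, hdI⟩
    omega
  · rw [Finset.erase_eq_of_notMem hdI] at hlt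
    have := Finset.card_le_card (Finset.subset_insert b I)
    omega

/-- The closed neighbourhood of `g` meets every independent set of maximal size. -/
lemma reducer_one (hG : Good G k) {g : V}
    (I : Finset V) (hI : ∀ x ∈ I, ∀ y ∈ I, ¬ G.Adj x y)
    (hav : ∀ x ∈ I, x ∉ {x | G.Adj g x} ∧ x ∉ ({g} : Set V)) :
    I.card + 1 < k := by
  classical
  have hgI : g ∉ I := fun h => (hav g h).2 rfl
  have := hG.2 (insert g I) (by
    intro x hx y hy hxy
    rcases Finset.mem_insert.1 hx with hxg | hx' <;> rcases Finset.mem_insert.1 hy with hyg | hy'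
    · rw [hxg, hyg] at hxy
      exact G.loopless.irrefl _ hxy
    · rw [hxg] at hxy
      exact (hav y hy').1 hxy
    · rw [hyg] at hxy
      exact (hav x hx').1 hxy.symm
    · exact hI x hx' y hy' hxy)
  rwa [Finset.card_insert_of_notMem hgI] at this

lemma indep_nbr (hG : Good G k) (a d : V) :
    ∀ u ∈ {x | G.Adj a x ∧ x ≠ d}, ∀ v ∈ {x | G.Adj a x ∧ x ≠ d}, ¬ G.Adj u v :=
  fun u hu v hv huv => hG.1 a u v hu.1 huv hv.1

lemma indep_nbr' (hG : Good G k) (a b : V) :
    ∀ u ∈ {x | (G.Adj b x ∧ ¬ G.Adj a x) ∨ x = a}, ∀ v ∈ {x | (G.Adj b x ∧ ¬ G.Adj a x) ∨ x = a},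
      ¬ G.Adj u v := by
  rintro u (⟨hu, hu'⟩ | rfl) v (⟨hv, hv'⟩ | rfl) huv
  · exact hG.1 b u v hu huv hv
  · exact hu' huv.symm
  · exact hv' huv
  · exact G.loopless.irrefl _ huv

end reducers

section cases

variable {V : Type*} [Fintype V] {G : SimpleGraph V} {k : ℕ}

/-- Case 1: `G` contains a four-cycle. -/
lemma step_of_C4 (hG : Good G k) {a b c d : V} (hab : a ≠ b) (hcd : c ≠ d)
    (hac : G.Adj a c) (hbc : G.Adj b c) (had : G.Adj a d) (hbd : G.Adj b d) :
    Fintype.card V + 4 < R (k + 1) := by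
  refine step_of_pairs hG (indep_nbr hG a d) (indep_nbr' hG a b) (indep_nbr hG d a)
    (indep_nbr' hG d c) ?_ (reducer_two hG hab had hbd)
    (reducer_two hG (k := k) hcd.symm had.symm hac.symm)
  have hT := hG.1
  rintro x (⟨h1, h2⟩ | ⟨h1, h2⟩ | rfl) (⟨h3, h4⟩ | ⟨h3, h4⟩ | rfl)
  · exact hT a d x had h3 h1
  · exact hT a c x hac h3 h1
  · exact h2 rfl
  · exact hT b d x hbd h3 h1
  · exact hT b c x hbc h3 h1
  · exact h2 had
  · exact h4 rfl
  · exact h4 had.symm
  · exact G.loopless.irrefl _ had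

/-- Case 2: `G` has two non-adjacent vertices without a common neighbour. -/
lemma step_of_far (hG : Good G k) {g g' : V} (hne : g ≠ g') (hadj : ¬ G.Adj g g')
    (hno : ∀ x, G.Adj g x → ¬ G.Adj g' x) :
    Fintype.card V + 4 < R (k + 1) := by
  refine step_of_pairs hG (A₁ := {x | G.Adj g x}) (A₂ := {g}) (B₁ := {x | G.Adj g' x})
    (B₂ := {g'}) ?_ ?_ ?_ ?_ ?_ (reducer_one hG) (reducer_one hG)
  · exact fun u hu v hv huv => hG.1 g u v hu huv hv
  · rintro u rfl v rfl; exact G.loopless.irrefl _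
  · exact fun u hu v hv huv => hG.1 g' u v hu huv hv
  · rintro u rfl v rfl; exact G.loopless.irrefl _
  · rintro x (h1 | h1) (h2 | h2)
    · exact hno x h1 h2
    · simp only [Set.mem_singleton_iff] at h2
      subst h2
      exact hadj h1
    · simp only [Set.mem_singleton_iff] at h1
      subst h1
      exact hadj (show G.Adj g' x from h2).symm
    · simp only [Set.mem_singleton_iff] at h1 h2
      exact hne (h1.symm.trans h2)

/-- Case 3: `G` has no four-cycle and has a vertex of degree at least four. -/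
lemma step_of_star (hG : Good G k)
    (hC4 : ∀ a b c d, a ≠ b → G.Adj a c → G.Adj b c → G.Adj a d → G.Adj b d → c = d)
    {d a b a' b' : V} (h1 : G.Adj a d) (h2 : G.Adj b d) (h3 : G.Adj a' d) (h4 : G.Adj b' d)
    (hab : a ≠ b) (haa : a ≠ a') (hab' : a ≠ b') (hba : b ≠ a') (hbb : b ≠ b') (ha'b' : a' ≠ b') :
    Fintype.card V + 4 < R (k + 1) := by
  refine step_of_pairs hG (indep_nbr hG a d) (indep_nbr' hG a b) (indep_nbr hG a' d)
    (indep_nbr' hG a' b') ?_ (reducer_two hG hab h1 h2) (reducer_two hG ha'b' h3 h4)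
  have hT := hG.1
  rintro x (⟨h5, h6⟩ | ⟨h5, h6⟩ | rfl) (⟨h7, h8⟩ | ⟨h7, h8⟩ | rfl)
  · exact h6 (hC4 a a' x d haa h5 h7 h1 h3)
  · exact h6 (hC4 a b' x d hab' h5 h7 h1 h4)
  · exact hT a x d h5 h3 h1
  · exact h8 (hC4 b a' x d hba h5 h7 h2 h3)
  · have := hC4 b b' x d hbb h5 h7 h2 h4
    subst this
    exact h6 h1
  · exact hT b x d h5 h3 h2
  · exact hT a' x d h7 h1 h3
  · exact hT b' x d h7 h1 h4
  · exact haa rfl

end cases

end Pool.Agent.H41.RamseyStep
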